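import Pool.Agent.Q184.WD.ASY
import Pool.Agent.Q210.WD.LOWER
import Pool.Agent.Q192.WD.TOP
import Pool.Agent.Q210.WD.SEC
import Pool.Agent.Q13.WD.HYPDEG
import Pool.Agent.Q26.WD.CNT
import Pool.Agent.Q26.WD.ZERO
import Pool.Agent.Q198.WD.PROJ
import Pool.Agent.Q130.WD.KRULL
import Pool.Agent.Q137.WD.CUT
import Pool.Agent.Q113.WD.DIM
import Pool.Agent.Q96.WD.BASE
import Pool.Agent.Q96.WD.HYPDIM
import Pool.Agent.Q184.WD.SUM
import Pool.Agent.Q170.WD.St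

/-!
# The facts about Hilbert functions and dimensions
-/

set_option autoImplicit false

namespace Pool.Agent.Q170.WD

theorem hASY : S_ASY := Pool.Agent.Q184.WD.t_ASY
theorem hLOWER : S_LOWER := Pool.Agent.Q210.WD.t_LOWER
theorem hTOP : S_TOP := Pool.Agent.Q192.WD.t_TOP
theorem hSEC : S_SEC := Pool.Agent.Q210.WD.t_SEC
theorem hHYPDEG : S_HYPDEG := Pool.Agent.Q13.WD.t_HYPDEG hTOP
theorem hCNT : S_CNT := Pool.Agent.Q26.WD.t_CNT
theorem hZERO : S_ZERO := Pool.Agent.Q26.WD.t_ZERO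
theorem hPROJ : S_PROJ := Pool.Agent.Q198.WD.t_PROJ
theorem hHYPDIM : S_HYPDIM := Pool.Agent.Q96.WD.t_HYPDIM
theorem hKRULL : S_KRULL := Pool.Agent.Q130.WD.t_KRULL hHYPDIM
theorem hDIM : S_DIM := Pool.Agent.Q113.WD.t_DIM
theorem hCUT : S_CUT := Pool.Agent.Q137.WD.t_CUT hPROJ hHYPDEG hDIM hSEC
theorem hBASE : S_BASE := Pool.Agent.Q96.WD.t_BASE hKRULL hDIM
theorem hSUM : S_SUM := Pool.Agent.Q184.WD.t_SUM

end Pool.Agent.Q170.WD
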