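import Pool.Agent.Q170.WD.PStep
import Pool.Agent.Q170.WD.All

/-!
# Covering the zeros of forms of bounded degree by few primes of bounded degree
-/

set_option autoImplicit false

namespace Pool.Agent.Q170.WD

open MvPolynomial

variable {L : Type} [Field L] {N : ℕ}

/-- the zero ideal has degree one -/
theorem deg_bot : Deg (⊥ : Ideal (MvPolynomial (Fin N) L)) N 1 := by
  have hlim : Filter.Tendsto (fun t : ℕ => (((t : ℝ) + N) / t) ^ N) Filter.atTop
      (nhds (1 ^ N)) := by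
    apply Filter.Tendsto.pow
    have h1 : Filter.Tendsto (fun t : ℕ => 1 + (N : ℝ) / t) Filter.atTop (nhds (1 + 0)) :=
      tendsto_const_nhds.add (tendsto_const_div_atTop_nhds_zero_nat _)
    rw [add_zero] at h1
    refine h1.congr' ?_
    filter_upwards [Filter.eventually_gt_atTop 0] with t ht
    have : (t : ℝ) ≠ 0 := by positivity
    field_simp
  intro ε hε t0
  rw [one_pow] at hlim
  have h1 := hlim.eventually (gt_mem_nhds (show (1 : ℝ) < 1 + ε by linarith))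
  obtain ⟨t, ht, ht0, htp⟩ := (h1.and ((Filter.eventually_ge_atTop t0).and
    (Filter.eventually_gt_atTop 0))).exists
  refine ⟨t, ht0, ?_⟩
  rw [hTOP.1]
  have h2 : ((t + N).choose N : ℝ) * (N.factorial : ℝ) ≤ ((t : ℝ) + N) ^ N := by
    have h3 : (t + N).choose N * N.factorial ≤ (t + N) ^ N := by
      rw [mul_comm, ← Nat.descFactorial_eq_factorial_mul_choose]
      exact Nat.descFactorial_le_pow _ _
    exact_mod_cast h3
  refine le_trans h2 ?_
  have h4 : (0 : ℝ) < (t : ℝ) ^ N := by positivity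
  rw [div_pow] at ht
  rw [div_lt_iff₀ h4] at ht
  push_cast
  exact ht.le

theorem dim_bot : Dim (⊥ : Ideal (MvPolynomial (Fin N) L)) N := by
  unfold Dim
  rw [AlgEquiv.trdeg_eq (AlgEquiv.quotientBot L (MvPolynomial (Fin N) L)),
    MvPolynomial.trdeg_of_isDomain]
  simp

theorem hm_bot : Hm (⊥ : Ideal (MvPolynomial (Fin N) L)) := by
  intro f hf m
  rw [Ideal.mem_bot] at hf ⊢
  rw [hf, map_zero]

/-- the primes -/
theorem leaves (S : Set (MvPolynomial (Fin N) L)) (e : ℕ) (he : 1 ≤ e)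
    (hS : ∀ f ∈ S, (∃ m : ℕ, f.IsHomogeneous m) ∧ f.totalDegree ≤ e) (d : ℕ) :
    ∀ m, m + d ≤ N → ∀ I : Ideal (MvPolynomial (Fin N) L), I.IsPrime → Hm I → Dim I d →
      Deg I d (e ^ m) →
      ∃ F : Finset (Ideal (MvPolynomial (Fin N) L)), F.card ≤ (e ^ (N + 1)) ^ d ∧
        (∀ Q ∈ F, Q.IsPrime ∧ Hm Q ∧ (∀ f ∈ S, f ∈ Q) ∧ ∃ j, Dim Q j ∧ Deg Q j (e ^ N)) ∧
        ∀ y ∈ zeros I, (∀ f ∈ S, eval y f = 0) → ∃ Q ∈ F, y ∈ zeros Q := by
  classical
  induction d with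
  | zero =>
    intro m hm I hI hH hdim hdeg
    by_cases hall : ∀ f ∈ S, f ∈ I
    · refine ⟨{I}, by simp, fun Q hQ => ?_, fun y hy _ => ⟨I, by simp, hy⟩⟩
      rw [Finset.mem_singleton] at hQ
      subst hQ
      exact ⟨hI, hH, hall, 0, hdim, hdeg.weaken (Nat.pow_le_pow_right he (by omega))⟩
    · push Not at hall
      obtain ⟨f, hfS, hf⟩ := hall
      refine ⟨∅, by simp, by simp, fun y hy hyS => ?_⟩
      exfalso
      set M : Ideal (MvPolynomial (Fin N) L) := RingHom.ker (eval y) with hM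
      have hMp : M.IsPrime := RingHom.ker_isPrime _
      have hle : I ⊔ Ideal.span {f} ≤ M := by
        refine sup_le (fun g hg => ?_) ?_
        · rw [hM, RingHom.mem_ker]; exact hy g hg
        · rw [Ideal.span_singleton_le_iff_mem, hM, RingHom.mem_ker]; exact hyS f hfS
      obtain ⟨Q, hQ, -⟩ := Ideal.exists_minimalPrimes_le hle
      obtain ⟨k, hk, -⟩ := hKRULL L N I f Q 0 hI hf hQ hdim
      omega
  | succ d ih =>
    intro m hm I hI hH hdim hdeg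
    by_cases hall : ∀ f ∈ S, f ∈ I
    · refine ⟨{I}, ?_, fun Q hQ => ?_, fun y hy _ => ⟨I, by simp, hy⟩⟩
      · rw [Finset.card_singleton]
        exact Nat.one_le_pow _ _ (Nat.pow_pos he)
      · rw [Finset.mem_singleton] at hQ
        subst hQ
        exact ⟨hI, hH, hall, d + 1, hdim, hdeg.weaken (Nat.pow_le_pow_right he (by omega))⟩
    · push Not at hall
      obtain ⟨f, hfS, hf⟩ := hall
      obtain ⟨⟨mf, hmf⟩, hfe⟩ := hS f hfS
      obtain ⟨F0, hF1, hF2, hF3⟩ := section_primes hKRULL hSEC hASY hSUM hLOWER hCNT hI hf hfe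
        hdim hdeg
      have hem : e * e ^ m = e ^ (m + 1) := by ring
      have hch : ∀ Q : F0, ∃ F : Finset (Ideal (MvPolynomial (Fin N) L)),
          F.card ≤ (e ^ (N + 1)) ^ d ∧
          (∀ Q' ∈ F, Q'.IsPrime ∧ Hm Q' ∧ (∀ f ∈ S, f ∈ Q') ∧ ∃ j, Dim Q' j ∧
            Deg Q' j (e ^ N)) ∧
          ∀ y ∈ zeros Q.1, (∀ f ∈ S, eval y f = 0) → ∃ Q' ∈ F, y ∈ zeros Q' := by
        intro Q
        obtain ⟨h1, h2, h3, h4, h5⟩ := hF2 Q.1 Q.2
        rw [hem] at h5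
        exact ih (m + 1) (by omega) Q.1 h1.1.1 ((hH.sup_span hmf).minimal h1) h4 h5
      choose F hFa hFb hFc using hch
      refine ⟨Finset.univ.biUnion F, ?_, fun Q' hQ' => ?_, fun y hy hyS => ?_⟩
      · refine le_trans (Finset.card_biUnion_le_card_mul _ _ _ (fun Q _ => hFa Q)) ?_
        rw [Finset.card_univ, Fintype.card_coe]
        rw [hem] at hF1
        calc F0.card * (e ^ (N + 1)) ^ d ≤ e ^ (m + 1) * (e ^ (N + 1)) ^ d :=
              Nat.mul_le_mul_right _ hF1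
          _ ≤ e ^ (N + 1) * (e ^ (N + 1)) ^ d :=
              Nat.mul_le_mul_right _ (Nat.pow_le_pow_right he (by omega))
          _ = (e ^ (N + 1)) ^ (d + 1) := (pow_succ' _ _).symm
      · obtain ⟨Q, -, hQ⟩ := Finset.mem_biUnion.1 hQ'
        exact hFb Q Q' hQ
      · obtain ⟨Q, hQ, hyQ⟩ := hF3 y hy (hyS f hfS)
        obtain ⟨Q', hQ', hyQ'⟩ := hFc ⟨Q, hQ⟩ y hyQ hyS
        exact ⟨Q', Finset.mem_biUnion.2 ⟨⟨Q, hQ⟩, Finset.mem_univ _, hQ'⟩, hyQ'⟩

/-- the cover -/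
theorem cover (S : Set (MvPolynomial (Fin N) L)) (e : ℕ) (he : 1 ≤ e)
    (hS : ∀ f ∈ S, (∃ m : ℕ, f.IsHomogeneous m) ∧ f.totalDegree ≤ e) :
    ∃ F : Finset (Ideal (MvPolynomial (Fin N) L)), F.card ≤ (e ^ (N + 1)) ^ N ∧
      (∀ Q ∈ F, Q.IsPrime ∧ Hm Q ∧ (∀ f ∈ S, f ∈ Q) ∧ ∃ j, Dim Q j ∧ Deg Q j (e ^ N)) ∧
      ∀ y, (∀ f ∈ S, eval y f = 0) → ∃ Q ∈ F, y ∈ zeros Q := by
  obtain ⟨F, h1, h2, h3⟩ := leaves S e he hS N 0 (by omega) ⊥ Ideal.isPrime_bot hm_bot dim_bot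
    (by rw [pow_zero]; exact deg_bot)
  refine ⟨F, h1, h2, fun y hy => h3 y ?_ hy⟩
  intro f hf
  rw [Ideal.mem_bot] at hf
  rw [hf, map_zero]

end Pool.Agent.Q170.WD
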