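import Pool.Agent.Q170.WD.St

/-!
# Iterates of polynomial maps and degrees
-/

set_option autoImplicit false

namespace Pool.Agent.Q170.WD

open MvPolynomial

variable {L : Type} [Field L] {N : ℕ}

/-- total degrees of compositions -/
theorem totalDegree_aeval_le (Ψ : Fin N → MvPolynomial (Fin N) L) (d : ℕ)
    (hd : ∀ i, (Ψ i).totalDegree ≤ d) (f : MvPolynomial (Fin N) L) :
    (aeval Ψ f).totalDegree ≤ f.totalDegree * d := by
  rw [aeval_def, eval₂_eq]
  refine totalDegree_finsetSum_le (fun s hs => ?_)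
  refine le_trans (totalDegree_mul _ _) ?_
  have h1 : ((algebraMap L (MvPolynomial (Fin N) L)) (coeff s f)).totalDegree = 0 :=
    totalDegree_C _
  rw [h1, zero_add]
  refine le_trans (totalDegree_finsetProd _ _) ?_
  refine le_trans (Finset.sum_le_sum (fun i _ => (totalDegree_pow _ _).trans
    (Nat.mul_le_mul_left _ (hd i)))) ?_
  rw [← Finset.sum_mul]
  exact Nat.mul_le_mul_right _ (le_totalDegree hs)

/-- the pullback by the map `Φ` -/
noncomputable def pb (Φ : Fin N → MvPolynomial (Fin N) L) (f : MvPolynomial (Fin N) L) :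
    MvPolynomial (Fin N) L := aeval Φ f

/-- the map on points -/
noncomputable def mp (Φ : Fin N → MvPolynomial (Fin N) L) (y : Fin N → L) : Fin N → L :=
  fun i => eval y (Φ i)

theorem eval_pb (Φ : Fin N → MvPolynomial (Fin N) L) (y : Fin N → L)
    (f : MvPolynomial (Fin N) L) : eval y (pb Φ f) = eval (mp Φ y) f := by
  unfold pb mp
  rw [aeval_def, MvPolynomial.algebraMap_eq]
  rw [show eval y (eval₂ C Φ f) = (eval y) (eval₂Hom C Φ f) from rfl]
  rw [MvPolynomial.map_eval₂Hom]
  congr 1
  ext <;> simp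

theorem eval_pb_iter (Φ : Fin N → MvPolynomial (Fin N) L) (g : ℕ) (y : Fin N → L)
    (f : MvPolynomial (Fin N) L) :
    eval y ((pb Φ)^[g] f) = eval ((mp Φ)^[g] y) f := by
  induction g generalizing y f with
  | zero => rfl
  | succ g ih =>
    rw [Function.iterate_succ_apply, ih, eval_pb, ← Function.iterate_succ_apply' (mp Φ)]

theorem pb_iter_eq (Φ : Fin N → MvPolynomial (Fin N) L) (g : ℕ) (f : MvPolynomial (Fin N) L) :
    (pb Φ)^[g] f = aeval (fun i => (pb Φ)^[g] (X i)) f := by
  induction g generalizing f with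
  | zero => simp
  | succ g ih =>
    rw [Function.iterate_succ_apply, ih]
    have h : (fun i => (pb Φ)^[g + 1] (X i)) = fun i =>
        aeval (fun i => (pb Φ)^[g] (X i)) (Φ i) := by
      funext i
      rw [Function.iterate_succ_apply, ih]
      congr 1
      unfold pb
      simp
    rw [h]
    unfold pb
    rw [← AlgHom.comp_apply]
    congr 1
    ext i
    simp

/-- the degrees of the iterates are bounded by `D` -/
def Bd (Φ : Fin N → MvPolynomial (Fin N) L) (D : ℕ → ℕ) : Prop :=
  ∀ g i, ((pb Φ)^[g] (X i)).totalDegree ≤ D g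

theorem Bd.le {Φ : Fin N → MvPolynomial (Fin N) L} {D : ℕ → ℕ} (h : Bd Φ D) (g : ℕ)
    (f : MvPolynomial (Fin N) L) : ((pb Φ)^[g] f).totalDegree ≤ f.totalDegree * D g := by
  rw [pb_iter_eq]
  exact totalDegree_aeval_le _ _ (h g) f

/-- exponential bound -/
theorem bd_exp (Φ : Fin N → MvPolynomial (Fin N) L) (D : ℕ) (hD : 1 ≤ D)
    (h : ∀ i, (Φ i).totalDegree ≤ D) :
    Bd Φ (fun g => D ^ g) := by
  have key : ∀ (g : ℕ) (f : MvPolynomial (Fin N) L),
      ((pb Φ)^[g] f).totalDegree ≤ f.totalDegree * D ^ g := by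
    intro g
    induction g with
    | zero => intro f; simp
    | succ g ih =>
      intro f
      rw [Function.iterate_succ_apply']
      refine le_trans (totalDegree_aeval_le Φ D h _) ?_
      rw [pow_succ, ← mul_assoc]
      exact Nat.mul_le_mul_right _ (ih f)
  intro g i
  refine le_trans (key g _) ?_
  have h1 : (X i : MvPolynomial (Fin N) L).totalDegree ≤ 1 := by
    rw [totalDegree_X]
  calc _ ≤ 1 * D ^ g := Nat.mul_le_mul_right _ h1
    _ = D ^ g := one_mul _

end Pool.Agent.Q170.WD
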