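import Pool.Agent.Q170.WD.FinP

/-!
# Orbits with irreducible closure have no progressions of returns
-/

set_option autoImplicit false

namespace Pool.Agent.Q170.WD

open MvPolynomial

variable {K : Type} [Field K] {n : ℕ}

/-- closed subsets of `X` -/
def Cl (X A : Set (Projectivization K (Fin n → K))) : Prop :=
  ∃ S : Set (MvPolynomial (Fin n) K), (∀ f ∈ S, ∃ e : ℕ, f.IsHomogeneous e) ∧
    ∀ x ∈ X, x ∈ A ↔ ∀ f ∈ S, eval x.rep f = 0

theorem Cl.union {X A B : Set (Projectivization K (Fin n → K))} (hA : Cl X A) (hB : Cl X B) :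
    Cl X (A ∪ B) := by
  obtain ⟨S, hS, hS'⟩ := hA
  obtain ⟨T, hT, hT'⟩ := hB
  refine ⟨{h | ∃ f ∈ S, ∃ g ∈ T, h = f * g}, ?_, fun x hx => ?_⟩
  · rintro h ⟨f, hf, g, hg, rfl⟩
    obtain ⟨e, he⟩ := hS f hf
    obtain ⟨e', he'⟩ := hT g hg
    exact ⟨e + e', he.mul he'⟩
  · rw [Set.mem_union, hS' x hx, hT' x hx]
    constructor
    · rintro (h | h) _ ⟨f, hf, g, hg, rfl⟩
      · rw [map_mul, h f hf, zero_mul]
      · rw [map_mul, h g hg, mul_zero]
    · intro h
      by_contra hcon
      push Not at hcon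
      obtain ⟨⟨f, hf, hf'⟩, g, hg, hg'⟩ := hcon
      have := h _ ⟨f, hf, g, hg, rfl⟩
      rw [map_mul] at this
      exact (mul_ne_zero hf' hg') this

/-- points are closed -/
theorem cl_point (X : Set (Projectivization K (Fin n → K)))
    (y : Projectivization K (Fin n → K)) : Cl X {y} := by
  obtain ⟨l, hl⟩ : ∃ l, y.rep l ≠ 0 := Function.ne_iff.1 y.rep_nonzero
  refine ⟨{f | ∃ j, f = C (y.rep l) * MvPolynomial.X j - C (y.rep j) * MvPolynomial.X l}, ?_,
    fun x _ => ?_⟩
  · rintro f ⟨j, rfl⟩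
    refine ⟨1, ?_⟩
    have h1 : ∀ (c : K) (i : Fin n),
        (C c * MvPolynomial.X i : MvPolynomial (Fin n) K).IsHomogeneous 1 := by
      intro c i
      have := (isHomogeneous_C (Fin n) c).mul (isHomogeneous_X K i)
      rwa [zero_add] at this
    exact (h1 _ _).sub (h1 _ _)
  · constructor
    · intro hx
      rw [Set.mem_singleton_iff] at hx
      subst hx
      rintro f ⟨j, rfl⟩
      simp only [map_sub, map_mul, eval_C, eval_X]
      ring
    · intro h
      rw [Set.mem_singleton_iff]
      have h1 : ∀ j, y.rep l * x.rep j = y.rep j * x.rep l := by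
        intro j
        have := h _ ⟨j, rfl⟩
        simp only [map_sub, map_mul, eval_C, eval_X] at this
        exact sub_eq_zero.1 this
      have hxl : x.rep l ≠ 0 := by
        intro h0
        apply x.rep_nonzero
        funext j
        have := h1 j
        rw [h0, mul_zero] at this
        exact (mul_eq_zero.1 this).resolve_left hl
      rw [← x.mk_rep, ← y.mk_rep, Projectivization.mk_eq_mk_iff']
      refine ⟨x.rep l / y.rep l, ?_⟩
      funext j
      rw [Pi.smul_apply, smul_eq_mul, div_mul_eq_mul_div, div_eq_iff hl]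
      have := h1 j
      linear_combination -this

/-- preimages are closed -/
theorem Cl.pre {X A : Set (Projectivization K (Fin n → K))} (hA : Cl X A)
    {Φ : Projectivization K (Fin n → K) → Projectivization K (Fin n → K)}
    (hmaps : ∀ x ∈ X, Φ x ∈ X) {g : ℕ}
    (hrep : ∀ x ∈ X, ∃ H, Rep X Φ (vL K) g H ∧ ∃ i, eval (vL K x) (H i) ≠ 0) :
    Cl X {x | Φ^[g] x ∈ A} := by
  obtain ⟨S, hS, hS'⟩ := hA
  have hiter : ∀ x ∈ X, Φ^[g] x ∈ X := by
    intro x hx
    induction g with
    | zero => exact hx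
    | succ k ih =>
      clear hrep ih
      have : ∀ k, Φ^[k] x ∈ X := by
        intro k
        induction k with
        | zero => exact hx
        | succ k ih => rw [Function.iterate_succ_apply']; exact hmaps _ ih
      exact this _
  refine ⟨{h | ∃ f ∈ S, ∃ H, Rep X Φ (vL K) g H ∧ h = aeval H f}, ?_, fun x hx => ?_⟩
  · rintro h ⟨f, hf, H, ⟨⟨e, he, hHe⟩, -⟩, rfl⟩
    obtain ⟨m, hm⟩ := hS f hf
    exact ⟨_, hm.aeval H hHe⟩
  · rw [Set.mem_setOf_eq, hS' _ (hiter x hx)]
    have hscale : ∀ (f : MvPolynomial (Fin n) K) (m : ℕ), f.IsHomogeneous m →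
        ∀ H, Rep X Φ (vL K) g H → ((∀ i, eval (vL K x) (H i) = 0) ∧
          (m ≠ 0 → eval x.rep (aeval H f) = 0)) ∨
          ∃ c : K, c ≠ 0 ∧ eval x.rep (aeval H f) = c ^ m * eval (Φ^[g] x).rep f := by
      intro f m hm H hH
      rcases hH.2 x hx with h | ⟨c, hc, h⟩
      · left
        refine ⟨h, fun hm0 => ?_⟩
        rw [eval_aeval]
        have : (fun i => eval x.rep (H i)) = 0 := funext h
        rw [this]
        have h2 := eval_smul hm 0 (0 : Fin n → K)
        simp only [zero_mul] at h2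
        rw [zero_pow hm0, zero_mul] at h2
        exact h2
      · right
        refine ⟨c, hc, ?_⟩
        rw [eval_aeval, ← eval_smul hm]
        congr 2
        funext i
        exact h i
    constructor
    · rintro h _ ⟨f, hf, H, hH, rfl⟩
      obtain ⟨m, hm⟩ := hS f hf
      rcases hscale f m hm H hH with ⟨h1, h2⟩ | ⟨c, hc, h2⟩
      · by_cases hm0 : m = 0
        · subst hm0
          have h3 := (totalDegree_zero_iff_isHomogeneous _).2 hm
          rw [totalDegree_eq_zero_iff_eq_C] at h3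
          have h4 := h f hf
          rw [h3, eval_C] at h4
          rw [h3, h4]
          simp
        · exact h2 hm0
      · rw [h2, h f hf, mul_zero]
    · intro h f hf
      obtain ⟨m, hm⟩ := hS f hf
      obtain ⟨H, hH, i, hi⟩ := hrep x hx
      rcases hscale f m hm H hH with ⟨h1, h2⟩ | ⟨c, hc, h2⟩
      · exact absurd (h1 i) hi
      · have h3 := h _ ⟨f, hf, H, hH, rfl⟩
        rw [h2] at h3
        exact (mul_eq_zero.1 h3).resolve_left (pow_ne_zero _ hc)

/-- the closure of the orbit is irreducible -/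
def IrrOrbit (X : Set (Projectivization K (Fin n → K)))
    (x : ℕ → Projectivization K (Fin n → K)) : Prop :=
  ∀ A B, Cl X A → Cl X B → (∀ m, x m ∈ A ∪ B) → (∀ m, x m ∈ A) ∨ ∀ m, x m ∈ B

theorem IrrOrbit.finite {X : Set (Projectivization K (Fin n → K))}
    {x : ℕ → Projectivization K (Fin n → K)} (h : IrrOrbit X x)
    (A : ℕ → Set (Projectivization K (Fin n → K))) (hA : ∀ i, Cl X (A i)) (k : ℕ)
    (hcov : ∀ m, ∃ i ≤ k, x m ∈ A i) : ∃ i ≤ k, ∀ m, x m ∈ A i := by
  have key : ∀ k, Cl X {y | ∃ i ≤ k, y ∈ A i} ∧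
      ((∀ m, x m ∈ {y | ∃ i ≤ k, y ∈ A i}) → ∃ i ≤ k, ∀ m, x m ∈ A i) := by
    intro k
    induction k with
    | zero =>
      have h1 : {y | ∃ i ≤ 0, y ∈ A i} = A 0 := by
        ext y
        simp
      rw [h1]
      exact ⟨hA 0, fun h2 => ⟨0, le_rfl, h2⟩⟩
    | succ k ih =>
      have h1 : {y | ∃ i ≤ k + 1, y ∈ A i} = {y | ∃ i ≤ k, y ∈ A i} ∪ A (k + 1) := by
        ext y
        simp only [Set.mem_union, Set.mem_setOf_eq]
        constructor
        · rintro ⟨i, hi, hy⟩
          rcases Nat.lt_or_ge k i with h2 | h2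
          · right
            have : i = k + 1 := by omega
            rwa [this] at hy
          · exact Or.inl ⟨i, h2, hy⟩
        · rintro (⟨i, hi, hy⟩ | hy)
          · exact ⟨i, by omega, hy⟩
          · exact ⟨k + 1, le_rfl, hy⟩
      rw [h1]
      refine ⟨ih.1.union (hA _), fun h2 => ?_⟩
      rcases h _ _ ih.1 (hA (k + 1)) h2 with h3 | h3
      · obtain ⟨i, hi, h4⟩ := ih.2 h3
        exact ⟨i, by omega, h4⟩
      · exact ⟨k + 1, le_rfl, h3⟩
  exact (key k).2 hcov

/-- no progressions of returns -/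
theorem no_prog {X : Set (Projectivization K (Fin n → K))}
    {Φ : Projectivization K (Fin n → K) → Projectivization K (Fin n → K)}
    (hmaps : ∀ x ∈ X, Φ x ∈ X)
    (hrep : ∀ g, ∀ x ∈ X, ∃ H, Rep X Φ (vL K) g H ∧ ∃ i, eval (vL K x) (H i) ≠ 0)
    {α : Projectivization K (Fin n → K)} (hα : α ∈ X)
    (hirr : IrrOrbit X (fun m => Φ^[m] α)) {A : Set (Projectivization K (Fin n → K))}
    (hA : Cl X A) {m g : ℕ} (hg : 1 ≤ g) (h : ∀ j, Φ^[m + g * j] α ∈ A) :
    ∀ i, Φ^[i] α ∈ A := by
  -- a whole tail is in `A`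
  have htail : ∃ k, ∀ i, Φ^[i + k] α ∈ A := by
    obtain ⟨k, -, hk⟩ := hirr.finite (fun k => {x | Φ^[k] x ∈ A})
      (fun k => hA.pre hmaps (hrep k)) (m + g) (fun i => by
        rcases Nat.lt_or_ge i m with h1 | h1
        · refine ⟨m - i, by omega, ?_⟩
          change Φ^[m - i] (Φ^[i] α) ∈ A
          rw [← iter_add, Nat.add_sub_cancel' h1.le]
          simpa using h 0
        · refine ⟨g - (i - m) % g, by omega, ?_⟩
          change Φ^[g - (i - m) % g] (Φ^[i] α) ∈ A
          rw [← iter_add]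
          have h2 := Nat.div_add_mod (i - m) g
          have h3 := Nat.mod_lt (i - m) hg
          have h4 : i + (g - (i - m) % g) = m + g * ((i - m) / g + 1) := by
            rw [mul_add]
            omega
          rw [h4]
          exact h _)
    refine ⟨k, fun i => ?_⟩
    rw [iter_add]
    exact hk i
  obtain ⟨k, hk⟩ := htail
  by_contra hcon
  push Not at hcon
  -- the points before the tail
  obtain ⟨i0, -, hi0⟩ := hirr.finite
    (fun i => if i = 0 then A else {Φ^[i - 1] α}) (fun i => by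
      split_ifs
      · exact hA
      · exact cl_point X _) k (fun i => by
        rcases Nat.lt_or_ge i k with h1 | h1
        · exact ⟨i + 1, by omega, by simp⟩
        · refine ⟨0, by omega, ?_⟩
          have := hk (i - k)
          rw [Nat.sub_add_cancel h1] at this
          simpa using this)
  by_cases h0 : i0 = 0
  · subst h0
    obtain ⟨i, hi⟩ := hcon
    have := hi0 i
    simp only [if_true] at this
    exact hi this
  · simp only [if_neg h0, Set.mem_singleton_iff] at hi0
    obtain ⟨i, hi⟩ := hcon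
    apply hi
    have h5 := hk 0
    rw [zero_add] at h5
    rwa [hi0 i, ← hi0 k]

end Pool.Agent.Q170.WD
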