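import Pool.Agent.Q170.WD.Orb
import Pool.Agent.Q170.WD.Bez

/-!
# The final counts
-/

set_option autoImplicit false

namespace Pool.Agent.Q170.WD

open MvPolynomial

theorem totalDegree_map_le' {K L : Type} [Field K] [Field L] {n : ℕ} (f : K →+* L)
    (p : MvPolynomial (Fin n) K) : (map f p).totalDegree ≤ p.totalDegree :=
  Finset.sup_mono (support_map_subset _ _)

section base

variable {K : Type} [Field K] {n : ℕ}

/-- `Ψ` is given on `X` locally by forms; the sum of the degrees of the forms and of the form `g`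
which defines the open set is at most `D` -/
def Given (D : ℕ) (X : Set (Projectivization K (Fin n → K)))
    (Ψ : Projectivization K (Fin n → K) → Projectivization K (Fin n → K)) : Prop :=
  ∀ x ∈ X, ∃ (F : Fin n → MvPolynomial (Fin n) K) (g : MvPolynomial (Fin n) K) (d e : ℕ),
    (∀ i, (F i).IsHomogeneous d) ∧ g.IsHomogeneous e ∧ d + e ≤ D ∧ eval x.rep g ≠ 0 ∧
    ∀ y ∈ X, eval y.rep g ≠ 0 →
      ∃ h : (fun i => eval y.rep (F i)) ≠ 0, Projectivization.mk K _ h = Ψ y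

/-- coordinates over a larger field -/
noncomputable def vL (L : Type) [Field L] [Algebra K L] (x : Projectivization K (Fin n → K)) :
    Fin n → L := fun i => algebraMap K L (x.rep i)

variable (L : Type) [Field L] [Algebra K L]

theorem eval_vL (x : Projectivization K (Fin n → K)) (f : MvPolynomial (Fin n) K) :
    eval (vL L x) (map (algebraMap K L) f) = algebraMap K L (eval x.rep f) := by
  unfold vL
  rw [eval_map, eval₂_eq, eval_eq, map_sum]
  refine Finset.sum_congr rfl (fun s _ => ?_)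
  rw [map_mul, map_prod]
  congr 1
  exact Finset.prod_congr rfl (fun i _ => by rw [map_pow])

theorem vL_ne (x : Projectivization K (Fin n → K)) : vL L x ≠ 0 := by
  intro h
  apply x.rep_nonzero
  funext i
  have := congrFun h i
  unfold vL at this
  exact (algebraMap K L).injective (by rw [this]; simp)

theorem Given.rep {D : ℕ} {X : Set (Projectivization K (Fin n → K))}
    {Φ : Projectivization K (Fin n → K) → Projectivization K (Fin n → K)} {g : ℕ}
    (h : Given D X (Φ^[g])) (x : Projectivization K (Fin n → K)) (hx : x ∈ X) :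
    ∃ H, Rep X Φ (vL L) g H ∧ (∀ i, (H i).totalDegree ≤ D + 1) ∧
      ∃ i, eval (vL L x) (H i) ≠ 0 := by
  obtain ⟨F, u, d, e, hF, hu, hde, hux, hrep⟩ := h x hx
  obtain ⟨l, hl⟩ : ∃ l, x.rep l ≠ 0 := Function.ne_iff.1 x.rep_nonzero
  have hhom : ∀ i, (F i * u * MvPolynomial.X l).IsHomogeneous (d + e + 1) := fun i =>
    ((hF i).mul hu).mul (isHomogeneous_X _ _)
  have hev : ∀ (y : Projectivization K (Fin n → K)) i,
      eval (vL L y) (map (algebraMap K L) (F i * u * MvPolynomial.X l)) =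
        algebraMap K L (eval y.rep (F i) * eval y.rep u * y.rep l) := by
    intro y i
    rw [eval_vL]
    simp only [map_mul, eval_X]
  refine ⟨fun i => map (algebraMap K L) (F i * u * MvPolynomial.X l),
    ⟨⟨d + e + 1, by omega, fun i => (hhom i).map _⟩, fun y hy => ?_⟩, fun i => ?_, ?_⟩
  · by_cases h0 : eval y.rep u = 0 ∨ y.rep l = 0
    · left
      intro i
      rw [hev]
      rcases h0 with h0 | h0
      · rw [h0]; simp
      · rw [h0]; simp
    · right
      push Not at h0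
      obtain ⟨hne, hmk⟩ := hrep y hy h0.1
      rw [← Projectivization.mk_rep (Φ^[g] y), Projectivization.mk_eq_mk_iff'] at hmk
      obtain ⟨a, ha⟩ := hmk
      have ha0 : a ≠ 0 := by
        rintro rfl
        rw [zero_smul] at ha
        exact hne ha.symm
      refine ⟨algebraMap K L (a * eval y.rep u * y.rep l), ?_, fun i => ?_⟩
      · rw [Ne, map_eq_zero]
        exact mul_ne_zero (mul_ne_zero ha0 h0.1) h0.2
      · rw [hev]
        have h1 := congrFun ha i
        rw [Pi.smul_apply, smul_eq_mul] at h1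
        rw [← h1]
        unfold vL
        rw [← map_mul]
        congr 1
        ring
  · refine le_trans (totalDegree_map_le' _ _) (le_trans (hhom i).totalDegree_le (by omega))
  · obtain ⟨hne, -⟩ := hrep x hx hux
    obtain ⟨i, hi⟩ := Function.ne_iff.1 hne
    refine ⟨i, ?_⟩
    rw [hev, Ne, map_eq_zero]
    exact mul_ne_zero (mul_ne_zero hi hux) hl

end base

theorem log_iter_anti {i k : ℕ} (h : i ≤ k) (T : ℕ) :
    (Nat.log 2)^[k] T ≤ (Nat.log 2)^[i] T := by
  obtain ⟨j, rfl⟩ := Nat.exists_eq_add_of_le h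
  rw [add_comm, Function.iterate_add_apply]
  exact log_iter_le _ _

/-- the sum over the primes of the cover -/
theorem sum_cover {L : Type} [Field L] [IsAlgClosed L] {N : ℕ} {P : Type} {X : Set P}
    {Φ : P → P} {v : P → Fin N → L} {D : ℕ → ℕ} (hD : BdP X Φ v D)
    {Sf : Set (MvPolynomial (Fin N) L)} {e k : ℕ}
    {F : Finset (Ideal (MvPolynomial (Fin N) L))}
    (hF : ∀ Q ∈ F, Q.IsPrime ∧ Hm Q ∧ (∀ f ∈ Sf, f ∈ Q) ∧ ∃ j, Dim Q j ∧ Deg Q j (e ^ N))
    (hFc : ∀ y, (∀ f ∈ Sf, eval y f = 0) → ∃ Q ∈ F, y ∈ zeros Q)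
    (hk : ∀ Q ∈ F, ∀ j, Dim Q j → j ≤ k + 1) {G B T : ℕ}
    (hcb : ∀ i, i ≤ k → CbP X Φ v {y | ∀ f ∈ Sf, eval y f = 0} (i + 1) (e ^ N) T G B)
    (x : P) (hx : x ∈ X) (M : ℕ) (E : Finset ℕ)
    (hE : ∀ n ∈ E, M ≤ n ∧ n < M + T ∧ n ∈ ExP Φ v {y | ∀ f ∈ Sf, eval y f = 0} T x) :
    G * E.card ≤ F.card * B := by
  classical
  have h1 : E.card ≤ ∑ Q ∈ F, (E.filter (fun n => v (Φ^[n] x) ∈ zeros Q)).card := by
    refine le_trans (Finset.card_le_card ?_) Finset.card_biUnion_le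
    intro n hn
    obtain ⟨Q, hQ, hQ'⟩ := hFc _ (hE n hn).2.2.1
    exact Finset.mem_biUnion.2 ⟨Q, hQ, Finset.mem_filter.2 ⟨hn, hQ'⟩⟩
  calc G * E.card ≤ G * ∑ Q ∈ F, (E.filter (fun n => v (Φ^[n] x) ∈ zeros Q)).card :=
        Nat.mul_le_mul_left _ h1
    _ = ∑ Q ∈ F, G * (E.filter (fun n => v (Φ^[n] x) ∈ zeros Q)).card := by
        rw [Finset.mul_sum]
    _ ≤ ∑ Q ∈ F, B := by
        refine Finset.sum_le_sum (fun Q hQ => ?_)
        obtain ⟨hQ1, hQ2, hQ3, j, hj, hj'⟩ := hF Q hQ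
        rcases j with _ | i
        · have : E.filter (fun n => v (Φ^[n] x) ∈ zeros Q) = ∅ := by
            refine Finset.filter_eq_empty_iff.2 (fun n hn h2 => ?_)
            exact hD.ne _ (hD.iter hx n) (zeros_dim_zero hZERO hQ1 hQ2 hj h2)
          rw [this]
          simp
        · have hi : i ≤ k := by
            have := hk Q hQ _ hj
            omega
          refine hcb i hi Q hQ1 hQ2 hj hj' ?_ x hx M _ ?_
          · intro y hy f hf
            exact hy f (hQ3 f hf)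
          · intro n hn
            obtain ⟨hn1, hn2⟩ := Finset.mem_filter.1 hn
            exact ⟨(hE n hn1).1, (hE n hn1).2.1, (hE n hn1).2.2, hn2⟩
    _ = F.card * B := by rw [Finset.sum_const, smul_eq_mul]

/-- the returns which do not start a progression with difference smaller than `T` -/
def Exc {K : Type} [Field K] {n : ℕ}
    (Φ : Projectivization K (Fin n → K) → Projectivization K (Fin n → K))
    (S : Set (MvPolynomial (Fin n) K)) (T : ℕ) (α : Projectivization K (Fin n → K)) : Set ℕ :=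
  {m | (∀ f ∈ S, eval (Φ^[m] α).rep f = 0) ∧
    ∀ g, 1 ≤ g → g < T → ∃ j, ¬ ∀ f ∈ S, eval (Φ^[m + g * j] α).rep f = 0}

section main

variable {K : Type} [Field K] {n : ℕ}

/-- the forms over the larger field -/
def SL (L : Type) [Field L] [Algebra K L] (S : Set (MvPolynomial (Fin n) K)) :
    Set (MvPolynomial (Fin n) L) := map (algebraMap K L) '' S

theorem mem_SL (L : Type) [Field L] [Algebra K L] (S : Set (MvPolynomial (Fin n) K))
    (x : Projectivization K (Fin n → K)) :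
    (∀ f ∈ SL L S, eval (vL L x) f = 0) ↔ ∀ f ∈ S, eval x.rep f = 0 := by
  constructor
  · intro h f hf
    have h1 := h _ ⟨f, hf, rfl⟩
    rw [eval_vL, map_eq_zero] at h1
    exact h1
  · rintro h _ ⟨f, hf, rfl⟩
    rw [eval_vL, h f hf, map_zero]

/-- the setting over the algebraic closure -/
theorem setting (S : Set (MvPolynomial (Fin n) K)) (e k : ℕ)
    (hS : ∀ f ∈ S, (∃ m : ℕ, f.IsHomogeneous m) ∧ f.totalDegree ≤ e)
    (hk : ringKrullDim (MvPolynomial (Fin n) K ⧸ Ideal.span S) ≤ ((k + 1 : ℕ) : WithBot ℕ∞)) :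
    ∃ F : Finset (Ideal (MvPolynomial (Fin n) (AlgebraicClosure K))),
      F.card ≤ ((e + 1) ^ (n + 1)) ^ n ∧
      (∀ Q ∈ F, Q.IsPrime ∧ Hm Q ∧ (∀ f ∈ SL (AlgebraicClosure K) S, f ∈ Q) ∧
        ∃ j, Dim Q j ∧ Deg Q j ((e + 1) ^ n)) ∧
      (∀ y, (∀ f ∈ SL (AlgebraicClosure K) S, eval y f = 0) → ∃ Q ∈ F, y ∈ zeros Q) ∧
      ∀ Q ∈ F, ∀ j, Dim Q j → j ≤ k + 1 := by
  obtain ⟨F, h1, h2, h3⟩ := cover (SL (AlgebraicClosure K) S) (e + 1) (by omega) (by
    rintro _ ⟨f, hf, rfl⟩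
    obtain ⟨⟨m, hm⟩, hfe⟩ := hS f hf
    exact ⟨⟨m, hm.map _⟩, le_trans (totalDegree_map_le' _ _) (by omega)⟩)
  refine ⟨F, h1, h2, h3, fun Q hQ j hj => ?_⟩
  obtain ⟨hQ1, -, hQ3, -⟩ := h2 Q hQ
  refine hBASE K (AlgebraicClosure K) n (k + 1) (Ideal.span S) Q j hk hQ1 ?_ hj
  rw [Ideal.map_span, Ideal.span_le]
  rintro _ ⟨f, hf, rfl⟩
  exact hQ3 _ ⟨f, hf, rfl⟩

end main

/-- **The rate for all self-maps.** -/
theorem main_exp (n D e k : ℕ) : ∃ C : ℕ, ∀ (K : Type) [Field K]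
    (X : Set (Projectivization K (Fin n → K)))
    (Φ : Projectivization K (Fin n → K) → Projectivization K (Fin n → K)),
    (∀ x ∈ X, Φ x ∈ X) → Given D X Φ → ∀ S : Set (MvPolynomial (Fin n) K),
    (∀ f ∈ S, (∃ m : ℕ, f.IsHomogeneous m) ∧ f.totalDegree ≤ e) →
    ringKrullDim (MvPolynomial (Fin n) K ⧸ Ideal.span S) ≤ ((k + 1 : ℕ) : WithBot ℕ∞) →
    ∀ α ∈ X, ∀ M T : ℕ,
      (Exc Φ S T α ∩ Set.Ico M (M + T)).ncard * (Nat.log 2)^[k] T ≤ C * T := by
  set b := D + 1 with hb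
  set s := ((e + 1) ^ (n + 1)) ^ n with hs
  set Δ := (e + 1) ^ n with hΔ
  set c := 1 + (b + 5) * k with hc
  refine ⟨2 * c * (s * (1 + 2 * k)) + c * (Δ + 1), fun K _ X Φ hmaps hG S hS hk α hα M T => ?_⟩
  obtain ⟨F, hF1, hF2, hF3, hF4⟩ := setting S e k hS hk
  have hD0 : BdP X Φ (vL (AlgebraicClosure K)) (fun g => (2 ^ b) ^ g) := by
    refine bdP_exp hmaps (fun x _ => vL_ne _ x) (2 ^ b) Nat.one_le_two_pow (fun x hx => ?_)
    obtain ⟨H, h1, h2, h3⟩ := Given.rep (AlgebraicClosure K) (Φ := Φ) (g := 1) hG x hx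
    exact ⟨H, h1, fun i => (h2 i).trans (by rw [← hb]; exact Nat.lt_two_pow_self.le), h3⟩
  have hD : BdP X Φ (vL (AlgebraicClosure K)) (fun g => 2 ^ (b * g)) := by
    have : (fun g => (2 ^ b) ^ g) = fun g => 2 ^ (b * g) := by
      funext g
      rw [pow_mul]
    rwa [this] at hD0
  have hfin : (Exc Φ S T α ∩ Set.Ico M (M + T)).Finite := (Set.finite_Ico _ _).subset
    Set.inter_subset_right
  set E := hfin.toFinset with hE
  have hcard : (Exc Φ S T α ∩ Set.Ico M (M + T)).ncard = E.card :=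
    Set.ncard_eq_toFinset_card _ hfin
  rw [hcard]
  have hEmem : ∀ m ∈ E, M ≤ m ∧ m < M + T ∧
      m ∈ ExP Φ (vL (AlgebraicClosure K))
        {y | ∀ f ∈ SL (AlgebraicClosure K) S, eval y f = 0} T α := by
    intro m hm
    rw [hE, Set.Finite.mem_toFinset] at hm
    obtain ⟨⟨hm1, hm2⟩, hm3, hm4⟩ := hm
    refine ⟨hm3, hm4, (mem_SL _ S _).2 hm1, fun g hg hgT => ?_⟩
    obtain ⟨j, hj⟩ := hm2 g hg hgT
    exact ⟨j, fun h => hj ((mem_SL _ S _).1 h)⟩
  have hET : E.card ≤ T := by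
    have h1 : E ⊆ Finset.Ico M (M + T) := fun m hm =>
      Finset.mem_Ico.2 ⟨(hEmem m hm).1, (hEmem m hm).2.1⟩
    have := Finset.card_le_card h1
    rwa [Nat.card_Ico, Nat.add_sub_cancel_left] at this
  set U := (Nat.log 2)^[k] T with hU
  set G := U / c with hGdef
  have hc1 : 1 ≤ c := by omega
  have hcG : c * G ≤ U := Nat.mul_div_le _ _
  have hUc : U ≤ c * (G + 1) := by
    have := Nat.lt_mul_div_succ U (by omega : 0 < c)
    rw [← hGdef] at this
    exact this.le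
  by_cases hcase : 1 ≤ G ∧ Δ ≤ 2 ^ G
  · obtain ⟨hG1, hG2⟩ := hcase
    have h1 := sum_cover hD hF2 hF3 hF4 (G := G) (B := (1 + 2 * k) * T) (T := T)
      (fun i hi => ((pcount_exp hKRULL hSEC hASY hSUM hLOWER hCNT hCUT hZERO b hD _ T i G
        ((e + 1) ^ n) hG1 ?_ hG2).mono ?_)) α hα M E hEmem
    · have h2 : F.card * ((1 + 2 * k) * T) ≤ s * ((1 + 2 * k) * T) := Nat.mul_le_mul_right _ hF1
      calc E.card * U ≤ E.card * (c * (2 * G)) :=
            Nat.mul_le_mul_left _ (hUc.trans (Nat.mul_le_mul_left _ (by omega)))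
        _ = 2 * c * (G * E.card) := by ring
        _ ≤ 2 * c * (s * ((1 + 2 * k) * T)) := Nat.mul_le_mul_left _ (h1.trans h2)
        _ = 2 * c * (s * (1 + 2 * k)) * T := by ring
        _ ≤ _ := Nat.mul_le_mul_right _ (Nat.le_add_right _ _)
    · refine le_trans ?_ (log_iter_anti hi T)
      refine le_trans (Nat.mul_le_mul_right _ ?_) hcG
      rw [hc]
      gcongr
    · gcongr
  · have hGΔ : G ≤ Δ := by
      by_contra hcon
      push Not at hcon
      apply hcase
      exact ⟨by omega, hcon.le.trans Nat.lt_two_pow_self.le⟩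
    calc E.card * U ≤ T * (c * (Δ + 1)) := by
          refine Nat.mul_le_mul hET (hUc.trans (Nat.mul_le_mul_left _ (by omega)))
      _ = c * (Δ + 1) * T := by ring
      _ ≤ _ := Nat.mul_le_mul_right _ (Nat.le_add_left _ _)

end Pool.Agent.Q170.WD
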