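import Pool.Agent.Q170.WD.Fin

/-!
# The final count for maps whose iterates have polynomially bounded degrees
-/

set_option autoImplicit false

namespace Pool.Agent.Q170.WD

open MvPolynomial

/-- **The rate for maps of polynomial degree growth.** -/
theorem main_pol (n b κ e k : ℕ) : ∃ C : ℕ, ∀ (K : Type) [Field K]
    (X : Set (Projectivization K (Fin n → K)))
    (Φ : Projectivization K (Fin n → K) → Projectivization K (Fin n → K)),
    (∀ x ∈ X, Φ x ∈ X) → (∀ g, 1 ≤ g → Given (b * g ^ κ) X (Φ^[g])) →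
    ∀ S : Set (MvPolynomial (Fin n) K),
    (∀ f ∈ S, (∃ m : ℕ, f.IsHomogeneous m) ∧ f.totalDegree ≤ e) →
    ringKrullDim (MvPolynomial (Fin n) K ⧸ Ideal.span S) ≤ ((k + 1 : ℕ) : WithBot ℕ∞) →
    ∀ α ∈ X, ∀ M T : ℕ, 1 ≤ T →
      ((Exc Φ S T α ∩ Set.Ico M (M + T)).ncard : ℝ) ≤ C * (T : ℝ) ^ (1 - 1 / ((κ : ℝ) + 4) ^ k) := by
  set b' := b + 1 with hb
  set s := ((e + 1) ^ (n + 1)) ^ n with hs
  set Δ := (e + 1) ^ n with hΔ
  set c := (2 * b') ^ k with hc
  set q := (κ + 4) ^ k with hq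
  refine ⟨2 * c * (s * (1 + 2 * k)) + c * (Δ + 1), fun K _ X Φ hmaps hG S hS hk α hα M T hT => ?_⟩
  obtain ⟨F, hF1, hF2, hF3, hF4⟩ := setting S e k hS hk
  have hD : BdP X Φ (vL (AlgebraicClosure K)) (fun g => b * g ^ κ + 1) := by
    refine ⟨hmaps, fun x _ => vL_ne _ x, fun g x hx => ?_⟩
    rcases Nat.eq_zero_or_pos g with rfl | hg
    · obtain ⟨i, hi⟩ : ∃ i, vL (AlgebraicClosure K) x i ≠ 0 := Function.ne_iff.1 (vL_ne _ x)
      refine ⟨fun i => MvPolynomial.X i, ⟨⟨1, le_rfl, fun i => isHomogeneous_X _ _⟩,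
        fun y hy => Or.inr ⟨1, one_ne_zero, fun i => by simp⟩⟩,
        fun i => by rw [totalDegree_X]; omega, i, by simpa using hi⟩
    · exact Given.rep (AlgebraicClosure K) (hG g hg) x hx
  have hD' : ∀ g, 1 ≤ g → (fun g => b * g ^ κ + 1) g ≤ b' * g ^ κ := by
    intro g hg
    have : 1 ≤ g ^ κ := Nat.one_le_pow _ _ hg
    simp only [hb]
    nlinarith
  have hfin : (Exc Φ S T α ∩ Set.Ico M (M + T)).Finite := (Set.finite_Ico _ _).subset
    Set.inter_subset_right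
  set E := hfin.toFinset with hE
  have hcard : (Exc Φ S T α ∩ Set.Ico M (M + T)).ncard = E.card :=
    Set.ncard_eq_toFinset_card _ hfin
  rw [hcard]
  have hEmem : ∀ m ∈ E, M ≤ m ∧ m < M + T ∧
      m ∈ ExP Φ (vL (AlgebraicClosure K))
        {y | ∀ f ∈ SL (AlgebraicClosure K) S, eval y f = 0} T α := by
    intro m hm
    rw [hE, Set.Finite.mem_toFinset] at hm
    obtain ⟨⟨hm1, hm2⟩, hm3, hm4⟩ := hm
    refine ⟨hm3, hm4, (mem_SL _ S _).2 hm1, fun g hg hgT => ?_⟩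
    obtain ⟨j, hj⟩ := hm2 g hg hgT
    exact ⟨j, fun h => hj ((mem_SL _ S _).1 h)⟩
  have hET : E.card ≤ T := by
    have h1 : E ⊆ Finset.Ico M (M + T) := fun m hm =>
      Finset.mem_Ico.2 ⟨(hEmem m hm).1, (hEmem m hm).2.1⟩
    have := Finset.card_le_card h1
    rwa [Nat.card_Ico, Nat.add_sub_cancel_left] at this
  have hb1 : 1 ≤ b' := by omega
  have hc1 : 1 ≤ c := Nat.one_le_pow _ _ (by omega)
  have hq1 : 1 ≤ q := Nat.one_le_pow _ _ (by omega)
  have hTr : (1 : ℝ) ≤ T := by exact_mod_cast hT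
  have hT0 : (0 : ℝ) < T := by linarith
  have hcr : (1 : ℝ) ≤ c := by exact_mod_cast hc1
  have hcr0 : (0 : ℝ) < c := by linarith
  set τ : ℝ := (T : ℝ) ^ (1 / (q : ℝ)) with hτ
  have hτ0 : 0 < τ := Real.rpow_pos_of_pos hT0 _
  have hτq : τ ^ q = T := by
    rw [hτ, ← Real.rpow_natCast, ← Real.rpow_mul hT0.le, one_div,
      inv_mul_cancel₀ (by exact_mod_cast (by omega : q ≠ 0)), Real.rpow_one]
  have hexp : (T : ℝ) ^ (1 - 1 / ((κ : ℝ) + 4) ^ k) = T / τ := by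
    rw [Real.rpow_sub hT0, Real.rpow_one, hτ]
    congr 2
    rw [hq]
    push_cast
    ring
  rw [hexp]
  set G := ⌊τ / c⌋₊ with hGdef
  have hGle : (c : ℝ) * G ≤ τ := by
    have h1 : (G : ℝ) ≤ τ / c := Nat.floor_le (by positivity)
    calc (c : ℝ) * G ≤ c * (τ / c) := mul_le_mul_of_nonneg_left h1 hcr0.le
      _ = τ := by field_simp
  have hcG : (c * G) ^ q ≤ T := by
    have h1 : ((c : ℝ) * G) ^ q ≤ τ ^ q := pow_le_pow_left₀ (by positivity) hGle q
    rw [hτq] at h1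
    exact_mod_cast h1
  have hUc : τ ≤ c * (G + 1) := by
    have h1 : τ / c < G + 1 := Nat.lt_floor_add_one _
    rw [div_lt_iff₀ hcr0] at h1
    linarith
  have hgoal : ∀ R : ℕ, (E.card : ℝ) * τ ≤ R * T → (E.card : ℝ) ≤ R * (T / τ) := by
    intro R h
    rw [← mul_div_assoc, le_div_iff₀ hτ0]
    exact h
  apply hgoal
  by_cases hcase : 1 ≤ G ∧ Δ ≤ G
  · obtain ⟨hG1, hG2⟩ := hcase
    have h1 := sum_cover hD hF2 hF3 hF4 (G := G) (B := (1 + 2 * k) * T) (T := T)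
      (fun i hi => ((pcount_pol hKRULL hSEC hASY hSUM hLOWER hCNT hCUT hZERO b' κ hb1 hD hD' _ T i
        G ((e + 1) ^ n) hG1 ?_ hG2).mono ?_)) α hα M E hEmem
    · have h2 : F.card * ((1 + 2 * k) * T) ≤ s * ((1 + 2 * k) * T) := Nat.mul_le_mul_right _ hF1
      have h3 : (G : ℝ) * E.card ≤ s * ((1 + 2 * k) * T) := by exact_mod_cast h1.trans h2
      have hG1r : (1 : ℝ) ≤ G := by exact_mod_cast hG1
      push_cast
      have hTn : (0 : ℝ) ≤ c * (Δ + 1) * T := by positivity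
      calc (E.card : ℝ) * τ ≤ E.card * (c * (2 * G)) := by
            refine mul_le_mul_of_nonneg_left (hUc.trans ?_) (Nat.cast_nonneg _)
            exact mul_le_mul_of_nonneg_left (by linarith) hcr0.le
        _ = 2 * c * (G * E.card) := by ring
        _ ≤ 2 * c * (s * ((1 + 2 * k) * T)) := mul_le_mul_of_nonneg_left h3 (by positivity)
        _ ≤ (2 * c * (s * (1 + 2 * k)) + c * (Δ + 1)) * T := by nlinarith
    · refine le_trans ?_ hcG
      have h4 : (2 * b') ^ i * G ≤ c * G := by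
        rw [hc]
        exact Nat.mul_le_mul_right _ (Nat.pow_le_pow_right (by omega) hi)
      calc ((2 * b') ^ i * G) ^ (κ + 4) ^ i ≤ (c * G) ^ (κ + 4) ^ i := Nat.pow_le_pow_left h4 _
        _ ≤ (c * G) ^ q := by
            refine Nat.pow_le_pow_right (Nat.mul_pos hc1 hG1) ?_
            rw [hq]
            exact Nat.pow_le_pow_right (by omega) hi
    · gcongr
  · have hGΔ : G ≤ Δ := by
      by_contra hcon
      push Not at hcon
      exact hcase ⟨by omega, hcon.le⟩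
    have hGΔr : (G : ℝ) ≤ Δ := by exact_mod_cast hGΔ
    have hETr : (E.card : ℝ) ≤ T := by exact_mod_cast hET
    push_cast
    have h0 : (0 : ℝ) ≤ 2 * c * (s * (1 + 2 * k)) * T := by positivity
    calc (E.card : ℝ) * τ ≤ T * (c * (Δ + 1)) :=
          mul_le_mul hETr (hUc.trans (mul_le_mul_of_nonneg_left (by linarith) hcr0.le)) hτ0.le
            hT0.le
      _ ≤ (2 * c * (s * (1 + 2 * k)) + c * (Δ + 1)) * T := by nlinarith

/-- **The returns in progressions.** -/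
theorem main_orb {K : Type} [Field K] {n D : ℕ} {X : Set (Projectivization K (Fin n → K))}
    {Φ : Projectivization K (Fin n → K) → Projectivization K (Fin n → K)}
    (hmaps : ∀ x ∈ X, Φ x ∈ X) (hG : Given D X Φ) (S : Set (MvPolynomial (Fin n) K))
    (hS : ∀ f ∈ S, ∃ m : ℕ, f.IsHomogeneous m)
    (α : Projectivization K (Fin n → K)) (hα : α ∈ X) :
    ∃ F : Finset (ℕ × ℕ), (∀ p ∈ F, 1 ≤ p.2) ∧
      {m | ∃ g, 1 ≤ g ∧ ∀ j, ∀ f ∈ S, eval (Φ^[m + g * j] α).rep f = 0} =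
        ⋃ p ∈ F, {m | ∃ j, m = p.1 + p.2 * j} := by
  have hD0 : BdP X Φ (vL K) (fun g => (2 ^ (D + 1)) ^ g) := by
    refine bdP_exp hmaps (fun x _ => vL_ne _ x) (2 ^ (D + 1)) Nat.one_le_two_pow (fun x hx => ?_)
    obtain ⟨H, h1, h2, h3⟩ := Given.rep K (Φ := Φ) (g := 1) hG x hx
    exact ⟨H, h1, fun i => (h2 i).trans Nat.lt_two_pow_self.le, h3⟩
  have h := orb hmaps (fun g x hx => by
    obtain ⟨H, h1, -, h3⟩ := hD0.rep g x hx
    exact ⟨H, h1, h3⟩) S hS α hα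
  have hv : ∀ y : Projectivization K (Fin n → K), vL K y = y.rep := fun y => rfl
  simp only [hv] at h
  exact orb_union (S := {m | ∀ f ∈ S, eval (Φ^[m] α).rep f = 0}) h

end Pool.Agent.Q170.WD
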