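import Pool.Agent.Q170.WD.Step

/-!
# Homogeneous ideals
-/

set_option autoImplicit false

namespace Pool.Agent.Q170.WD

open MvPolynomial

attribute [local instance] MvPolynomial.gradedAlgebra

variable {L : Type} [Field L] {N : ℕ}

/-- homogeneous ideals -/
def Hm (I : Ideal (MvPolynomial (Fin N) L)) : Prop :=
  ∀ f ∈ I, ∀ m, homogeneousComponent m f ∈ I

theorem decompose_coe (f : MvPolynomial (Fin N) L) (m : ℕ) :
    (DirectSum.decompose (homogeneousSubmodule (Fin N) L) f m : MvPolynomial (Fin N) L) =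
      homogeneousComponent m f := decomposition.decompose'_apply f m

theorem hm_iff (I : Ideal (MvPolynomial (Fin N) L)) :
    Hm I ↔ I.IsHomogeneous (homogeneousSubmodule (Fin N) L) := by
  constructor
  · intro h m f hf
    rw [decompose_coe]
    exact h f hf m
  · intro h f hf m
    have := h m hf
    rwa [decompose_coe] at this

theorem Hm.sup_span {I : Ideal (MvPolynomial (Fin N) L)} (h : Hm I) {f : MvPolynomial (Fin N) L}
    {e : ℕ} (hf : f.IsHomogeneous e) : Hm (I ⊔ Ideal.span {f}) := by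
  rw [hm_iff] at h ⊢
  refine Ideal.IsHomogeneous.sup h (Ideal.homogeneous_span _ _ ?_)
  rintro g hg
  rw [Set.mem_singleton_iff] at hg
  rw [hg]
  exact ⟨e, (mem_homogeneousSubmodule e f).2 hf⟩

theorem hm_span {S : Set (MvPolynomial (Fin N) L)} (h : ∀ f ∈ S, ∃ e : ℕ, f.IsHomogeneous e) :
    Hm (Ideal.span S) := by
  rw [hm_iff]
  refine Ideal.homogeneous_span _ _ ?_
  rintro g hg
  obtain ⟨e, he⟩ := h g hg
  exact ⟨e, (mem_homogeneousSubmodule e g).2 he⟩

theorem Hm.minimal {I : Ideal (MvPolynomial (Fin N) L)} (h : Hm I)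
    {Q : Ideal (MvPolynomial (Fin N) L)} (hQ : Q ∈ I.minimalPrimes) : Hm Q := by
  rw [hm_iff] at h ⊢
  set 𝒜 := homogeneousSubmodule (Fin N) L
  have h1 : (Q.homogeneousCore 𝒜).toIdeal.IsPrime := Ideal.IsPrime.homogeneousCore hQ.1.1
  have h2 : I ≤ (Q.homogeneousCore 𝒜).toIdeal :=
    h.toIdeal_homogeneousCore_eq_self.symm.trans_le (Ideal.homogeneousCore_mono _ hQ.1.2)
  have h3 := hQ.2 ⟨h1, h2⟩ (Ideal.toIdeal_homogeneousCore_le 𝒜 Q)
  have h4 : (Q.homogeneousCore 𝒜).toIdeal = Q :=
    le_antisymm (Ideal.toIdeal_homogeneousCore_le 𝒜 Q) h3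
  rw [← h4]
  exact (Ideal.homogeneousCore 𝒜 Q).isHomogeneous

/-- multiples of homogeneous zeros -/
theorem eval_smul {f : MvPolynomial (Fin N) L} {e : ℕ} (hf : f.IsHomogeneous e) (c : L)
    (y : Fin N → L) : eval (fun i => c * y i) f = c ^ e * eval y f := by
  rw [eval_eq, eval_eq, Finset.mul_sum]
  refine Finset.sum_congr rfl (fun s hs => ?_)
  have h1 : s.degree = e := hf.degree_eq_sum_deg_support hs ▸ rfl
  have h2 : ∑ i ∈ s.support, s i = e := h1
  simp only [mul_pow, Finset.prod_mul_distrib]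
  rw [Finset.prod_pow_eq_pow_sum, h2]
  ring

/-- a polynomial in a homogeneous ideal with a nonzero value has a component with a nonzero value -/
theorem exists_component {f : MvPolynomial (Fin N) L} {y : Fin N → L} (h : eval y f ≠ 0) :
    ∃ m, m ≤ f.totalDegree ∧ eval y (homogeneousComponent m f) ≠ 0 := by
  by_contra hcon
  push Not at hcon
  apply h
  rw [← sum_homogeneousComponent f, map_sum]
  exact Finset.sum_eq_zero (fun m hm => hcon m (by have := Finset.mem_range.1 hm; omega))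

/-- a homogeneous prime of dimension zero has no nonzero zeros -/
theorem zeros_dim_zero [IsAlgClosed L] (hZERO : S_ZERO) {Q : Ideal (MvPolynomial (Fin N) L)}
    (hQ : Q.IsPrime) (hH : Hm Q) (hdim : Dim Q 0) {y : Fin N → L} (hy : y ∈ zeros Q) : y = 0 := by
  refine hZERO L N Q hQ hdim y hy 0 ?_
  intro f hf
  have h1 : homogeneousComponent 0 f ∈ Q := hH f hf 0
  rw [homogeneousComponent_zero] at h1
  have h2 : coeff 0 f = 0 := by
    by_contra hne
    exact hQ.ne_top (Ideal.eq_top_of_isUnit_mem _ h1 ((isUnit_iff_ne_zero.2 hne).map C))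
  rw [MvPolynomial.eval_zero]
  exact h2

end Pool.Agent.Q170.WD
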