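import Pool.Agent.Q170.WD.PCnt

/-!
# The returns which lie in infinite progressions of returns
-/

set_option autoImplicit false

namespace Pool.Agent.Q170.WD

open MvPolynomial

variable {L : Type} [Field L] {N : ℕ} {P : Type}

/-- the ideal generated by the forms which vanish on `A` -/
noncomputable def van (v : P → Fin N → L) (A : Set P) : Ideal (MvPolynomial (Fin N) L) :=
  Ideal.span {f | (∃ e : ℕ, f.IsHomogeneous e) ∧ ∀ a ∈ A, eval (v a) f = 0}

theorem van_eval {v : P → Fin N → L} {A : Set P} {f : MvPolynomial (Fin N) L} (hf : f ∈ van v A)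
    {a : P} (ha : a ∈ A) : eval (v a) f = 0 := by
  have h1 : van v A ≤ RingHom.ker (eval (v a)) := by
    refine Ideal.span_le.2 (fun g hg => ?_)
    exact hg.2 a ha
  exact h1 hf

theorem van_anti {v : P → Fin N → L} {A B : Set P} (h : A ⊆ B) : van v B ≤ van v A := by
  refine Ideal.span_mono ?_
  rintro f ⟨hf, hf'⟩
  exact ⟨hf, fun a ha => hf' a (h ha)⟩

variable {X : Set P} {Φ : P → P} {v : P → Fin N → L}

/-- the points of a progression of an orbit -/
def prog (Φ : P → P) (x : P) (a g : ℕ) : Set P := {y | ∃ j, y = Φ^[a + g * j] x}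

/-- the structure of the return sets -/
theorem orb (hmaps : ∀ x ∈ X, Φ x ∈ X)
    (hrep : ∀ g, ∀ x ∈ X, ∃ H, Rep X Φ v g H ∧ ∃ i, eval (v x) (H i) ≠ 0)
    (S : Set (MvPolynomial (Fin N) L)) (hS : ∀ f ∈ S, ∃ e : ℕ, f.IsHomogeneous e) (x : P)
    (hx : x ∈ X) :
    ∃ g0 n0 : ℕ, 1 ≤ g0 ∧ ∀ r < g0,
      (∀ n, n0 ≤ n → n % g0 = r → ∀ f ∈ S, eval (v (Φ^[n] x)) f = 0) ∨
      ∀ n g, n0 ≤ n → n % g0 = r → 1 ≤ g → ∃ j, ¬ ∀ f ∈ S, eval (v (Φ^[n + g * j] x)) f = 0 := by
  classical
  have hiter : ∀ k, Φ^[k] x ∈ X := by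
    intro k
    induction k with
    | zero => exact hx
    | succ k ih => rw [Function.iterate_succ_apply']; exact hmaps _ ih
  -- a progression with a maximal ideal
  obtain ⟨J, ⟨a0, g0, hg0, rfl⟩, hmax⟩ := set_has_maximal_iff_noetherian.2
    (inferInstance : IsNoetherian (MvPolynomial (Fin N) L) (MvPolynomial (Fin N) L))
    {J | ∃ a g, 1 ≤ g ∧ J = van v (prog Φ x a g)} ⟨_, 0, 1, le_rfl, rfl⟩
  have key : ∀ (i a g : ℕ), 1 ≤ g → (∀ j, ∃ j', a + g * j = a0 + g0 * j' + i) →
      ∀ f : MvPolynomial (Fin N) L, (∃ e : ℕ, f.IsHomogeneous e) →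
      (∀ j, eval (v (Φ^[a + g * j] x)) f = 0) → ∀ j, eval (v (Φ^[a0 + g0 * j + i] x)) f = 0 := by
    intro i a g hg hsub f hf hfa j
    obtain ⟨m, hm⟩ := hf
    obtain ⟨H, hH, i0, hi0⟩ := hrep i _ (hiter (a0 + g0 * j))
    obtain ⟨⟨e, he, hHe⟩, hH4⟩ := hH
    by_cases hm0 : m = 0
    · subst hm0
      have h1 := (totalDegree_zero_iff_isHomogeneous _).2 hm
      rw [totalDegree_eq_zero_iff_eq_C] at h1
      have h2 := hfa 0
      rw [h1, eval_C] at h2
      rw [h1, eval_C]
      exact h2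
    · have hscale : ∀ z ∈ X, (∀ i, eval (v z) (H i) = 0) ∨
          ∃ c : L, c ≠ 0 ∧ eval (v z) (aeval H f) = c ^ m * eval (v (Φ^[i] z)) f := by
        intro z hz
        rcases hH4 z hz with h | ⟨c, hc, h⟩
        · exact Or.inl h
        · right
          refine ⟨c, hc, ?_⟩
          rw [eval_aeval, ← eval_smul hm]
          congr 2
          funext i
          exact h i
      have hf0 : eval (0 : Fin N → L) f = 0 := by
        have h2 := eval_smul hm 0 (0 : Fin N → L)
        simp only [zero_mul] at h2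
        rw [zero_pow hm0, zero_mul] at h2
        exact h2
      -- the progression shifted back
      obtain ⟨b, hb⟩ := hsub 0
      have hab : i ≤ a := by simp at hb; omega
      have hsub' : prog Φ x (a - i) g ⊆ prog Φ x a0 g0 := by
        rintro y ⟨j, rfl⟩
        obtain ⟨j', hj'⟩ := hsub j
        refine ⟨j', ?_⟩
        rw [show a - i + g * j = a0 + g0 * j' by omega]
      have heq : van v (prog Φ x (a - i) g) = van v (prog Φ x a0 g0) := by
        have h1 := van_anti (v := v) hsub'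
        by_contra hne
        exact hmax _ ⟨a - i, g, hg, rfl⟩ (lt_of_le_of_ne h1 (Ne.symm hne))
      have hmem : aeval H f ∈ van v (prog Φ x (a - i) g) := by
        refine Ideal.subset_span ⟨⟨_, hm.aeval H hHe⟩, ?_⟩
        rintro y ⟨j, rfl⟩
        rcases hscale _ (hiter (a - i + g * j)) with h | ⟨c, hc, h⟩
        · rw [eval_aeval]
          have : (fun i_1 => eval (v (Φ^[a - i + g * j] x)) (H i_1)) = 0 := funext h
          rw [this]
          exact hf0
        · rw [h, ← iter_add]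
          have h3 : a - i + g * j + i = a + g * j := by omega
          rw [h3, hfa j, mul_zero]
      rw [heq] at hmem
      have h4 := van_eval hmem (a := Φ^[a0 + g0 * j] x) ⟨j, rfl⟩
      rcases hscale _ (hiter (a0 + g0 * j)) with h | ⟨c, hc, h⟩
      · exact absurd (h i0) hi0
      · rw [h, ← iter_add] at h4
        exact (mul_eq_zero.1 h4).resolve_left (pow_ne_zero _ hc)
  refine ⟨g0, a0, hg0, fun r hr => ?_⟩
  by_cases hcase : ∃ n g, a0 ≤ n ∧ n % g0 = r ∧ 1 ≤ g ∧
      ∀ j, ∀ f ∈ S, eval (v (Φ^[n + g * j] x)) f = 0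
  · left
    obtain ⟨n, g, hn, hnr, hg, hall⟩ := hcase
    -- the residue class of `n`, from `a0` on
    set i := (n - a0) % g0 with hi
    have hni : n = a0 + g0 * ((n - a0) / g0) + i := by
      have := Nat.div_add_mod (n - a0) g0
      omega
    intro m hm hmr f hf
    have h1 := key i n (g * g0) (Nat.mul_pos hg hg0) (fun j => by
        refine ⟨(n - a0) / g0 + g * j, ?_⟩
        have : g * g0 * j = g0 * (g * j) := by ring
        rw [mul_add]
        omega) f (hS f hf) (fun j => by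
        have h2 := hall (g0 * j) f hf
        rwa [show n + g * (g0 * j) = n + g * g0 * j by ring] at h2)
    have h2 : (m - a0) % g0 = i := by
      have h3 : (m - a0) ≡ (n - a0) [MOD g0] := by
        have h4 : a0 + (m - a0) ≡ a0 + (n - a0) [MOD g0] := by
          rw [Nat.add_sub_cancel' hm, Nat.add_sub_cancel' hn]
          unfold Nat.ModEq
          rw [hmr, hnr]
        exact Nat.ModEq.add_left_cancel' a0 h4
      exact h3
    have h5 := h1 ((m - a0) / g0)
    have h6 : a0 + g0 * ((m - a0) / g0) + i = m := by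
      have := Nat.div_add_mod (m - a0) g0
      omega
    rwa [h6] at h5
  · right
    intro n g hn hnr hg
    by_contra hcon
    push Not at hcon
    exact hcase ⟨n, g, hn, hnr, hg, hcon⟩

/-- the returns in infinite progressions of returns are a finite union of progressions -/
theorem orb_union {S : Set ℕ} (h : ∃ g0 n0 : ℕ, 1 ≤ g0 ∧ ∀ r < g0,
    (∀ n, n0 ≤ n → n % g0 = r → n ∈ S) ∨
      ∀ n g, n0 ≤ n → n % g0 = r → 1 ≤ g → ∃ j, n + g * j ∉ S) :
    ∃ F : Finset (ℕ × ℕ), (∀ p ∈ F, 1 ≤ p.2) ∧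
      {n | ∃ g, 1 ≤ g ∧ ∀ j, n + g * j ∈ S} = ⋃ p ∈ F, {n | ∃ j, n = p.1 + p.2 * j} := by
  classical
  obtain ⟨g0, n0, hg0, h⟩ := h
  have hex : ∀ n, ∃ g, 1 ≤ g ∧ ((∃ g, 1 ≤ g ∧ ∀ j, n + g * j ∈ S) → ∀ j, n + g * j ∈ S) ∧
      ((∃ g, 1 ≤ g ∧ ∀ j, n + g * j ∈ S) → n0 ≤ n → g = g0) := by
    intro n
    by_cases hn : ∃ g, 1 ≤ g ∧ ∀ j, n + g * j ∈ S
    · by_cases hn0 : n0 ≤ n
      · refine ⟨g0, hg0, fun _ j => ?_, fun _ _ => rfl⟩
        rcases h (n % g0) (Nat.mod_lt _ hg0) with h1 | h1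
        · exact h1 _ (by omega) (by simp)
        · obtain ⟨g, hg, hg'⟩ := hn
          obtain ⟨j, hj⟩ := h1 n g hn0 rfl hg
          exact absurd (hg' j) hj
      · obtain ⟨g, hg, hg'⟩ := hn
        exact ⟨g, hg, fun _ => hg', fun _ h2 => absurd h2 hn0⟩
    · exact ⟨1, le_rfl, fun h2 => absurd h2 hn, fun h2 => absurd h2 hn⟩
  choose G hG1 hG2 hG3 using hex
  refine ⟨((Finset.range (n0 + g0)).filter (fun n => ∃ g, 1 ≤ g ∧ ∀ j, n + g * j ∈ S)).image
    (fun n => (n, G n)), ?_, ?_⟩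
  · intro p hp
    obtain ⟨n, -, rfl⟩ := Finset.mem_image.1 hp
    exact hG1 n
  · ext m
    simp only [Set.mem_iUnion, Finset.mem_image, Finset.mem_filter, Finset.mem_range]
    constructor
    · intro hm
      have hm' : ∃ g, 1 ≤ g ∧ ∀ j, m + g * j ∈ S := hm
      by_cases hlt : m < n0 + g0
      · exact ⟨(m, G m), ⟨m, ⟨hlt, hm'⟩, rfl⟩, 0, by simp⟩
      · -- the representative in `[n0, n0 + g0)`
        set q := (m - n0) / g0 with hq
        set n := n0 + (m - n0) % g0 with hn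
        have hdiv := Nat.div_add_mod (m - n0) g0
        have hmod := Nat.mod_lt (m - n0) hg0
        rw [← hq] at hdiv
        have hmn : m = n + g0 * q := by omega
        have hcls : ∀ n', n0 ≤ n' → n' % g0 = m % g0 → n' ∈ S := by
          rcases h (m % g0) (Nat.mod_lt _ hg0) with h1 | h1
          · exact h1
          · obtain ⟨g, hg, hg'⟩ := hm'
            obtain ⟨j, hj⟩ := h1 m g (by omega) rfl hg
            exact absurd (hg' j) hj
        have hnm : n % g0 = m % g0 := by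
          rw [hmn, Nat.add_mul_mod_self_left]
        have hnS : ∃ g, 1 ≤ g ∧ ∀ j, n + g * j ∈ S :=
          ⟨g0, hg0, fun j => hcls _ (by omega) (by rw [Nat.add_mul_mod_self_left, hnm])⟩
        refine ⟨(n, G n), ⟨n, ⟨by omega, hnS⟩, rfl⟩, q, ?_⟩
        rw [hG3 n hnS (by omega)]
        exact hmn
    · rintro ⟨p, ⟨n, ⟨hn, hnS⟩, rfl⟩, j, hj⟩
      refine ⟨G n, hG1 n, fun j' => ?_⟩
      have h1 := hG2 n hnS (j + j')
      simp only at hj
      rw [hj]
      rwa [show n + G n * j + G n * j' = n + G n * (j + j') by ring]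

end Pool.Agent.Q170.WD
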