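import Pool.Agent.Q170.WD.PStep
import Pool.Agent.Q170.RS.Cnt

/-!
# Counting returns which do not start a progression of returns
-/

set_option autoImplicit false

namespace Pool.Agent.Q170.WD

open MvPolynomial

variable {L : Type} [Field L] {N : ℕ} {P : Type}

/-- the times in `Z` which are not the start of an infinite progression of times in `Z`, with a
difference smaller than `T` -/
def ExP (Φ : P → P) (v : P → Fin N → L) (Z : Set (Fin N → L)) (T : ℕ) (x : P) : Set ℕ :=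
  {n | v (Φ^[n] x) ∈ Z ∧ ∀ g, 1 ≤ g → g < T → ∃ j, v (Φ^[n + g * j] x) ∉ Z}

/-- the number of such times in an interval of length `T`, times `s`, is at most `B`, for the points
in a prime of dimension `k` and degree at most `δ` -/
def CbP (X : Set P) (Φ : P → P) (v : P → Fin N → L) (Z : Set (Fin N → L)) (k δ T s B : ℕ) : Prop :=
  ∀ I : Ideal (MvPolynomial (Fin N) L), I.IsPrime → Hm I → Dim I k → Deg I k δ → zeros I ⊆ Z →
    ∀ x ∈ X, ∀ (M : ℕ) (E : Finset ℕ),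
    (∀ n ∈ E, M ≤ n ∧ n < M + T ∧ n ∈ ExP Φ v Z T x ∧ v (Φ^[n] x) ∈ zeros I) → s * E.card ≤ B

theorem CbP.mono {X : Set P} {Φ : P → P} {v : P → Fin N → L} {Z : Set (Fin N → L)}
    {k δ T s B B' : ℕ} (h : CbP X Φ v Z k δ T s B) (hB : B ≤ B') : CbP X Φ v Z k δ T s B' :=
  fun I h1 h2 h3 h4 h5 x h6 M E h7 => le_trans (h I h1 h2 h3 h4 h5 x h6 M E h7) hB

variable {X : Set P} {Φ : P → P} {v : P → Fin N → L} {D : ℕ → ℕ}

theorem iter_add (x : P) (n g : ℕ) : Φ^[n + g] x = Φ^[g] (Φ^[n] x) := by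
  rw [add_comm, Function.iterate_add_apply]

/-- a return which does not start a progression leaves `zeros I` -/
theorem exists_leave (hD : BdP X Φ v D) {Z : Set (Fin N → L)}
    {I : Ideal (MvPolynomial (Fin N) L)} (hIZ : zeros I ⊆ Z) {x : P} (hx : x ∈ X) {n : ℕ}
    {T : ℕ} (hn : n ∈ ExP Φ v Z T x) (hn' : v (Φ^[n] x) ∈ zeros I) {g : ℕ} (hg : 1 ≤ g)
    (hgT : g < T) :
    ∃ y ∈ X, v y ∈ zeros I ∧ v (Φ^[g] y) ∉ zeros I := by
  by_contra hcon
  push Not at hcon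
  obtain ⟨j, hj⟩ := hn.2 g hg hgT
  apply hj
  apply hIZ
  have h3 : ∀ j, v (Φ^[n + g * j] x) ∈ zeros I := by
    intro j
    induction j with
    | zero => simpa using hn'
    | succ j ih =>
      rw [show n + g * (j + 1) = (n + g * j) + g by ring, iter_add]
      exact hcon _ (hD.iter hx _) ih
  exact h3 j

/-- dimension one: at most one time -/
theorem cbP_one [IsAlgClosed L] (hKRULL : S_KRULL) (hSEC : S_SEC) (hASY : S_ASY) (hSUM : S_SUM)
    (hLOWER : S_LOWER) (hCNT : S_CNT) (hCUT : S_CUT) (hZERO : S_ZERO) (hD : BdP X Φ v D)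
    (Z : Set (Fin N → L)) (δ T s : ℕ) : CbP X Φ v Z 1 δ T s s := by
  intro I hI hH hdim hdeg hIZ x hx M E hE
  have h1 : E.card ≤ 1 := by
    rw [Finset.card_le_one]
    have key : ∀ a ∈ E, ∀ b ∈ E, a < b → False := by
      intro a ha b hb hab
      have h2 := exists_leave hD hIZ hx (hE a ha).2.2.1 (hE a ha).2.2.2
        (g := b - a) (by omega) (by have := (hE a ha).1; have := (hE b hb).2.1; omega)
      obtain ⟨F, -, hF2, hF3⟩ := pstep hKRULL hSEC hASY hSUM hLOWER hCNT hCUT hD hI hH hdim hdeg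
        (b - a) h2
      obtain ⟨Q, hQ, hQ'⟩ := hF3 _ (hD.iter hx a) (hE a ha).2.2.2 (by
        rw [← iter_add, Nat.add_sub_cancel' hab.le]
        exact (hE b hb).2.2.2)
      exact hD.ne _ (hD.iter hx a) (zeros_dim_zero hZERO (hF2 Q hQ).1 (hF2 Q hQ).2.1
        (hF2 Q hQ).2.2.2.1 hQ')
    intro a ha b hb
    rcases lt_trichotomy a b with h | h | h
    · exact (key a ha b hb h).elim
    · exact h
    · exact (key b hb a ha h).elim
  calc s * E.card ≤ s * 1 := Nat.mul_le_mul_left _ h1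
    _ = s := mul_one s

/-- the step of the count -/
theorem cbP_step [IsAlgClosed L] (hKRULL : S_KRULL) (hSEC : S_SEC) (hASY : S_ASY) (hSUM : S_SUM)
    (hLOWER : S_LOWER) (hCNT : S_CNT) (hCUT : S_CUT) (hD : BdP X Φ v D)
    (Z : Set (Fin N → L)) {k δ δ' T G G' DG C : ℕ}
    (hG : 1 ≤ G) (hDG : ∀ g, 1 ≤ g → g ≤ G → D g ≤ DG) (hδ' : δ * DG * δ ≤ δ') (hδ1 : 1 ≤ δ')
    (hG' : 2 * G * G * δ' ≤ G') (h : CbP X Φ v Z k δ' T G' (C * T)) :
    CbP X Φ v Z (k + 1) δ T G (T + G + C * T) := by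
  classical
  intro I hI hH hdim hdeg hIZ x hx M E hE
  -- the primes
  have hF : ∀ g, ∃ F : Finset (Ideal (MvPolynomial (Fin N) L)), F.card ≤ δ' ∧
      (∀ Q ∈ F, Q.IsPrime ∧ Hm Q ∧ I ≤ Q ∧ Dim Q k ∧ Deg Q k δ') ∧
      (1 ≤ g → g ≤ G → ∀ n ∈ E, n + g ∈ E → ∃ Q ∈ F, v (Φ^[n] x) ∈ zeros Q) := by
    intro g
    by_cases hg : 1 ≤ g ∧ g ≤ G ∧ ∃ y ∈ X, v y ∈ zeros I ∧ v (Φ^[g] y) ∉ zeros I
    · obtain ⟨hg1, hg2, hg3⟩ := hg
      obtain ⟨F, hF1, hF2, hF3⟩ := pstep hKRULL hSEC hASY hSUM hLOWER hCNT hCUT hD hI hH hdim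
        hdeg g hg3
      have hle : δ * D g * δ ≤ δ' :=
        le_trans (Nat.mul_le_mul_right _ (Nat.mul_le_mul_left _ (hDG g hg1 hg2))) hδ'
      refine ⟨F, hF1.trans hle, fun Q hQ => ⟨(hF2 Q hQ).1, (hF2 Q hQ).2.1, (hF2 Q hQ).2.2.1,
        (hF2 Q hQ).2.2.2.1, (hF2 Q hQ).2.2.2.2.weaken hle⟩, fun _ _ n hn hn' => ?_⟩
      refine hF3 _ (hD.iter hx n) (hE n hn).2.2.2 ?_
      rw [← iter_add]
      exact (hE _ hn').2.2.2
    · refine ⟨∅, by simp, by simp, fun hg1 hg2 n hn hn' => ?_⟩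
      exact (hg ⟨hg1, hg2, exists_leave hD hIZ hx (hE n hn).2.2.1 (hE n hn).2.2.2 hg1
        (by have := (hE n hn).1; have := (hE _ hn').2.1; omega)⟩).elim
  choose F hF1 hF2 hF3 using hF
  let Y : ℕ → Finset ℕ := fun g => E.filter (fun n => ∃ Q ∈ F g, v (Φ^[n] x) ∈ zeros Q)
  have hY : ∀ g, (Y g).card ≤ C * T / (2 * G * G) := by
    intro g
    rw [Nat.le_div_iff_mul_le (by positivity)]
    have h1 : (Y g).card ≤ ∑ Q ∈ F g, (E.filter (fun n => v (Φ^[n] x) ∈ zeros Q)).card := by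
      refine le_trans (Finset.card_le_card ?_) Finset.card_biUnion_le
      intro n hn
      obtain ⟨hn1, Q, hQ, hn2⟩ := Finset.mem_filter.1 hn
      exact Finset.mem_biUnion.2 ⟨Q, hQ, Finset.mem_filter.2 ⟨hn1, hn2⟩⟩
    have h2 : G' * (Y g).card ≤ δ' * (C * T) := by
      calc G' * (Y g).card ≤
            G' * ∑ Q ∈ F g, (E.filter (fun n => v (Φ^[n] x) ∈ zeros Q)).card :=
            Nat.mul_le_mul_left _ h1
        _ = ∑ Q ∈ F g, G' * (E.filter (fun n => v (Φ^[n] x) ∈ zeros Q)).card := by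
            rw [Finset.mul_sum]
        _ ≤ ∑ Q ∈ F g, C * T := by
            refine Finset.sum_le_sum (fun Q hQ => ?_)
            obtain ⟨hQ1, hQ2, hQ3, hQ4, hQ5⟩ := hF2 g Q hQ
            refine h Q hQ1 hQ2 hQ4 hQ5 ?_ x hx M _ ?_
            · exact fun y hy => hIZ (fun f hf => hy f (hQ3 hf))
            · intro n hn
              obtain ⟨hn1, hn2⟩ := Finset.mem_filter.1 hn
              exact ⟨(hE n hn1).1, (hE n hn1).2.1, (hE n hn1).2.2.1, hn2⟩
        _ = (F g).card * (C * T) := by rw [Finset.sum_const, smul_eq_mul]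
        _ ≤ δ' * (C * T) := Nat.mul_le_mul_right _ (hF1 g)
    have h3 : δ' * ((Y g).card * (2 * G * G)) ≤ δ' * (C * T) := by
      calc δ' * ((Y g).card * (2 * G * G)) = (2 * G * G * δ') * (Y g).card := by ring
        _ ≤ G' * (Y g).card := Nat.mul_le_mul_right _ hG'
        _ ≤ _ := h2
    exact Nat.le_of_mul_le_mul_left h3 hδ1
  have h1 := Pool.Agent.Q170.RS.gap_count E M T G hG (fun n hn => ⟨(hE n hn).1, (hE n hn).2.1⟩)
    Y (C * T / (2 * G * G)) hY (fun n hn n' hn' h1 h2 => by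
      refine ⟨n' - n, by omega, by omega, ?_⟩
      refine Finset.mem_filter.2 ⟨hn, ?_⟩
      refine hF3 (n' - n) (by omega) (by omega) n hn ?_
      rw [Nat.add_sub_cancel' h1.le]
      exact hn')
  have h2 : 2 * G * G * (C * T / (2 * G * G)) ≤ C * T := Nat.mul_div_le _ _
  omega

theorem log_iter_le (m V : ℕ) : (Nat.log 2)^[m] V ≤ V := by
  induction m generalizing V with
  | zero => simp
  | succ m ihm =>
    rw [Function.iterate_succ_apply]
    exact (ihm _).trans (Nat.log_le_self 2 V)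

/-- exponential growth of the degrees -/
theorem pcount_exp [IsAlgClosed L] (hKRULL : S_KRULL) (hSEC : S_SEC) (hASY : S_ASY) (hSUM : S_SUM)
    (hLOWER : S_LOWER) (hCNT : S_CNT) (hCUT : S_CUT) (hZERO : S_ZERO) (b : ℕ)
    (hD : BdP X Φ v (fun g => 2 ^ (b * g))) (Z : Set (Fin N → L)) (T k : ℕ) :
    ∀ G δ : ℕ, 1 ≤ G → (1 + (b + 5) * k) * G ≤ (Nat.log 2)^[k] T → δ ≤ 2 ^ G →
      CbP X Φ v Z (k + 1) δ T G ((1 + 2 * k) * T) := by
  induction k with
  | zero =>
    intro G δ hG h hδ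
    exact (cbP_one hKRULL hSEC hASY hSUM hLOWER hCNT hCUT hZERO hD Z δ T G).mono
      (by simpa using h)
  | succ k ih =>
    intro G δ hG hle hδ
    set c := 1 + (b + 5) * k with hc
    set C := 1 + 2 * k with hC
    have hG2 : G < 2 ^ G := Nat.lt_two_pow_self
    rw [Function.iterate_succ_apply'] at hle
    set U := (Nat.log 2)^[k] T with hU
    have hcc : 1 + (b + 5) * (k + 1) = c + (b + 5) := by rw [hc]; ring
    rw [hcc] at hle
    have hU0 : U ≠ 0 := by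
      intro h0
      rw [h0, Nat.log_zero_right] at hle
      have : 1 ≤ (c + (b + 5)) * G := Nat.one_le_iff_ne_zero.2 (by positivity)
      omega
    have hpow : 2 ^ ((c + (b + 5)) * G) ≤ U := Nat.pow_le_of_le_log hU0 hle
    have hUT : U ≤ T := log_iter_le k T
    have hGT : G ≤ T := by
      have h1 : G ≤ (c + (b + 5)) * G := Nat.le_mul_of_pos_left G (by omega)
      have h2 := Nat.log_le_self 2 U
      omega
    have hδ' : δ * 2 ^ (b * G) * δ ≤ 2 ^ ((b + 2) * G) := by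
      calc δ * 2 ^ (b * G) * δ ≤ 2 ^ G * 2 ^ (b * G) * 2 ^ G := by gcongr
        _ = 2 ^ ((b + 2) * G) := by rw [← pow_add, ← pow_add]; ring_nf
    have hG' : 2 * G * G * 2 ^ ((b + 2) * G) ≤ 2 ^ ((b + 5) * G) := by
      have h1 : 2 ≤ 2 ^ G := by
        calc 2 = 2 ^ 1 := by norm_num
          _ ≤ 2 ^ G := Nat.pow_le_pow_right (by norm_num) hG
      calc 2 * G * G * 2 ^ ((b + 2) * G) ≤ 2 ^ G * 2 ^ G * 2 ^ G * 2 ^ ((b + 2) * G) := by
            gcongr
        _ = 2 ^ ((b + 5) * G) := by rw [← pow_add, ← pow_add, ← pow_add]; ring_nf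
    have hstep := cbP_step hKRULL hSEC hASY hSUM hLOWER hCNT hCUT hD Z (k := k + 1) (δ := δ)
      (δ' := 2 ^ ((b + 2) * G)) (T := T) (G := G) (G' := 2 ^ ((b + 5) * G)) (DG := 2 ^ (b * G))
      (C := C) hG (fun g _ hg => Nat.pow_le_pow_right (by norm_num) (Nat.mul_le_mul_left _ hg))
      hδ' (Nat.one_le_two_pow) hG' (ih (2 ^ ((b + 5) * G)) _ Nat.one_le_two_pow ?_ ?_)
    · exact hstep.mono (by
        have : (1 + 2 * (k + 1)) * T = T + T + C * T := by rw [hC]; ring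
        omega)
    · calc c * 2 ^ ((b + 5) * G) ≤ 2 ^ (c * G) * 2 ^ ((b + 5) * G) := by
            gcongr
            calc c ≤ 2 ^ c := Nat.lt_two_pow_self.le
              _ ≤ 2 ^ (c * G) := Nat.pow_le_pow_right (by norm_num) (Nat.le_mul_of_pos_right c hG)
        _ = 2 ^ ((c + (b + 5)) * G) := by rw [← pow_add]; ring_nf
        _ ≤ U := hpow
    · refine Nat.pow_le_pow_right (by norm_num) ?_
      calc (b + 2) * G ≤ (b + 5) * G := Nat.mul_le_mul_right _ (by omega)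
        _ ≤ 2 ^ ((b + 5) * G) := Nat.lt_two_pow_self.le

/-- polynomial growth of the degrees -/
theorem pcount_pol [IsAlgClosed L] (hKRULL : S_KRULL) (hSEC : S_SEC) (hASY : S_ASY) (hSUM : S_SUM)
    (hLOWER : S_LOWER) (hCNT : S_CNT) (hCUT : S_CUT) (hZERO : S_ZERO) (b κ : ℕ) (hb : 1 ≤ b)
    (hD : BdP X Φ v D) (hD' : ∀ g, 1 ≤ g → D g ≤ b * g ^ κ) (Z : Set (Fin N → L)) (T k : ℕ) :
    ∀ G δ : ℕ, 1 ≤ G → ((2 * b) ^ k * G) ^ ((κ + 4) ^ k) ≤ T → δ ≤ G →
      CbP X Φ v Z (k + 1) δ T G ((1 + 2 * k) * T) := by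
  induction k with
  | zero =>
    intro G δ hG h hδ
    exact (cbP_one hKRULL hSEC hASY hSUM hLOWER hCNT hCUT hZERO hD Z δ T G).mono
      (by simpa using h)
  | succ k ih =>
    intro G δ hG hle hδ
    set c := (2 * b) ^ k with hc
    set C := 1 + 2 * k with hC
    have hc1 : 1 ≤ c := Nat.one_le_pow _ _ (by omega)
    rw [pow_succ, ← hc] at hle
    have hbc : 1 ≤ c * (2 * b) := Nat.one_le_iff_ne_zero.2 (by positivity)
    have hGT : G ≤ T := by
      refine le_trans ?_ hle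
      calc G ≤ c * (2 * b) * G := Nat.le_mul_of_pos_left G hbc
        _ = (c * (2 * b) * G) ^ 1 := (pow_one _).symm
        _ ≤ _ := Nat.pow_le_pow_right (Nat.mul_pos hbc hG) (Nat.one_le_pow _ _ (by omega))
    have hδ' : δ * (b * G ^ κ) * δ ≤ b * G ^ (κ + 2) := by
      calc δ * (b * G ^ κ) * δ ≤ G * (b * G ^ κ) * G := by gcongr
        _ = b * G ^ (κ + 2) := by ring
    have hG' : 2 * G * G * (b * G ^ (κ + 2)) ≤ 2 * b * G ^ (κ + 4) := by
      apply le_of_eq; ring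
    have hpos : 1 ≤ G ^ (κ + 2) := Nat.one_le_pow _ _ hG
    have hstep := cbP_step hKRULL hSEC hASY hSUM hLOWER hCNT hCUT hD Z (k := k + 1) (δ := δ)
      (δ' := b * G ^ (κ + 2)) (T := T) (G := G) (G' := 2 * b * G ^ (κ + 4)) (DG := b * G ^ κ)
      (C := C) hG (fun g hg1 hg => (hD' g hg1).trans
        (Nat.mul_le_mul_left _ (Nat.pow_le_pow_left hg _)))
      hδ' (Nat.mul_pos hb hpos) hG' (ih (2 * b * G ^ (κ + 4)) _ (by
        have : 1 ≤ G ^ (κ + 4) := Nat.one_le_pow _ _ hG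
        exact Nat.mul_pos (by omega) this) ?_ ?_)
    · exact hstep.mono (by
        have : (1 + 2 * (k + 1)) * T = T + T + C * T := by rw [hC]; ring
        omega)
    · refine le_trans ?_ hle
      rw [show (κ + 4) ^ (k + 1) = (κ + 4) * (κ + 4) ^ k by ring, pow_mul (c * (2 * b) * G)]
      refine Nat.pow_le_pow_left ?_ _
      calc c * (2 * b * G ^ (κ + 4)) = (c * (2 * b)) ^ 1 * G ^ (κ + 4) := by ring
        _ ≤ (c * (2 * b)) ^ (κ + 4) * G ^ (κ + 4) :=
            Nat.mul_le_mul_right _ (Nat.pow_le_pow_right hbc (by omega))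
        _ = (c * (2 * b) * G) ^ (κ + 4) := (mul_pow _ _ _).symm
    · calc b * G ^ (κ + 2) ≤ 2 * b * G ^ (κ + 4) := by
            gcongr
            · omega
            · omega

end Pool.Agent.Q170.WD
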