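import Pool.Agent.Q170.WD.Hom

/-!
# The step for maps which are given locally by forms
-/

set_option autoImplicit false

namespace Pool.Agent.Q170.WD

open MvPolynomial

variable {L : Type} [Field L] {N : ℕ} {P : Type}

/-- `H` represents the iterate `Φ ^ g` on `X` where it is not zero; `v` are coordinates -/
def Rep (X : Set P) (Φ : P → P) (v : P → Fin N → L) (g : ℕ)
    (H : Fin N → MvPolynomial (Fin N) L) : Prop :=
  (∃ e, 1 ≤ e ∧ ∀ i, (H i).IsHomogeneous e) ∧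
    ∀ x ∈ X, (∀ i, eval (v x) (H i) = 0) ∨
      ∃ c : L, c ≠ 0 ∧ ∀ i, eval (v x) (H i) = c * v (Φ^[g] x) i

/-- the iterates are given by forms of degree at most `D g` -/
structure BdP (X : Set P) (Φ : P → P) (v : P → Fin N → L) (D : ℕ → ℕ) : Prop where
  maps : ∀ x ∈ X, Φ x ∈ X
  ne : ∀ x ∈ X, v x ≠ 0
  rep : ∀ g, ∀ x ∈ X, ∃ H, Rep X Φ v g H ∧ (∀ i, (H i).totalDegree ≤ D g) ∧
    ∃ i, eval (v x) (H i) ≠ 0

variable {X : Set P} {Φ : P → P} {v : P → Fin N → L} {D : ℕ → ℕ}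

theorem BdP.iter (h : BdP X Φ v D) {x : P} (hx : x ∈ X) (k : ℕ) : Φ^[k] x ∈ X := by
  induction k with
  | zero => exact hx
  | succ k ih =>
    rw [Function.iterate_succ_apply']
    exact h.maps _ ih

theorem eval_aeval (H : Fin N → MvPolynomial (Fin N) L) (y : Fin N → L)
    (f : MvPolynomial (Fin N) L) : eval y (aeval H f) = eval (fun i => eval y (H i)) f :=
  eval_pb H y f

/-- the step -/
theorem pstep [IsAlgClosed L] (hKRULL : S_KRULL) (hSEC : S_SEC) (hASY : S_ASY) (hSUM : S_SUM)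
    (hLOWER : S_LOWER) (hCNT : S_CNT) (hCUT : S_CUT) (hD : BdP X Φ v D)
    {I : Ideal (MvPolynomial (Fin N) L)}
    (hI : I.IsPrime) (hH : Hm I) {d δ : ℕ} (hdim : Dim I (d + 1)) (hd : Deg I (d + 1) δ) (g : ℕ)
    (hg : ∃ y ∈ X, v y ∈ zeros I ∧ v (Φ^[g] y) ∉ zeros I) :
    ∃ F : Finset (Ideal (MvPolynomial (Fin N) L)), F.card ≤ δ * D g * δ ∧
      (∀ Q ∈ F, Q.IsPrime ∧ Hm Q ∧ I ≤ Q ∧ Dim Q d ∧ Deg Q d (δ * D g * δ)) ∧
      ∀ y ∈ X, v y ∈ zeros I → v (Φ^[g] y) ∈ zeros I → ∃ Q ∈ F, v y ∈ zeros Q := by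
  obtain ⟨y, hyX, hy, hy'⟩ := hg
  obtain ⟨f0, hf0I, hf0d, hf0y⟩ := hCUT L N (d + 1) δ I hI hdim hd _ hy'
  obtain ⟨m, hm, hfy⟩ := exists_component hf0y
  set f := homogeneousComponent m f0 with hf
  have hfI : f ∈ I := hH f0 hf0I m
  have hfh : f.IsHomogeneous m := homogeneousComponent_isHomogeneous m f0
  have hfd : f.totalDegree ≤ δ := le_trans hfh.totalDegree_le (hm.trans hf0d)
  have hf00 : eval (0 : Fin N → L) f = 0 := by
    have h1 : homogeneousComponent 0 f ∈ I := hH f hfI 0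
    rw [homogeneousComponent_zero] at h1
    rw [MvPolynomial.eval_zero]
    by_contra hne
    exact hI.ne_top (Ideal.eq_top_of_isUnit_mem _ h1 ((isUnit_iff_ne_zero.2 hne).map C))
  obtain ⟨H, hH1, hH2, i0, hH3⟩ := hD.rep g y hyX
  obtain ⟨⟨e, he, hHe⟩, hH4⟩ := hH1
  have hscale : ∀ z ∈ X, (∀ i, eval (v z) (H i) = 0) ∨
      ∃ c : L, c ≠ 0 ∧ eval (v z) (aeval H f) = c ^ m * eval (v (Φ^[g] z)) f := by
    intro z hz
    rcases hH4 z hz with h | ⟨c, hc, h⟩
    · exact Or.inl h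
    · right
      refine ⟨c, hc, ?_⟩
      rw [eval_aeval, ← eval_smul hfh]
      congr 2
      funext i
      exact h i
  have hh : aeval H f ∉ I := by
    intro h
    have h1 := hy _ h
    rcases hscale y hyX with h2 | ⟨c, hc, h2⟩
    · exact hH3 (h2 i0)
    · rw [h2] at h1
      rcases mul_eq_zero.1 h1 with h3 | h3
      · exact pow_ne_zero _ hc h3
      · exact hfy h3
  have hhom : (aeval H f).IsHomogeneous (m * e) := by
    have := hfh.aeval H hHe
    rwa [mul_comm] at this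
  obtain ⟨F, hF1, hF2, hF3⟩ := section_primes hKRULL hSEC hASY hSUM hLOWER hCNT hI hh
    (le_trans (totalDegree_aeval_le H (D g) hH2 f) (Nat.mul_le_mul_right _ hfd)) hdim hd
  refine ⟨F, hF1, fun Q hQ => ⟨(hF2 Q hQ).1.1.1, (hH.sup_span hhom).minimal (hF2 Q hQ).1,
    (hF2 Q hQ).2.1, (hF2 Q hQ).2.2.2.1, (hF2 Q hQ).2.2.2.2⟩, fun z hzX hz hz' => ?_⟩
  apply hF3 _ hz
  rcases hscale z hzX with h2 | ⟨c, hc, h2⟩
  · rw [eval_aeval]
    have : (fun i => eval (v z) (H i)) = 0 := funext h2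
    rw [this]
    exact hf00
  · rw [h2, hz' f hfI, mul_zero]

/-! ## Exponential bound for the degrees -/

/-- compositions of representatives -/
theorem rep_comp (hmaps : ∀ x ∈ X, Φ x ∈ X) {H H' : Fin N → MvPolynomial (Fin N) L}
    (h : Rep X Φ v 1 H) {g : ℕ} (h' : Rep X Φ v g H') :
    Rep X Φ v (g + 1) (fun i => aeval H (H' i)) := by
  obtain ⟨⟨e, he, hHe⟩, h1⟩ := h
  obtain ⟨⟨e', he', hHe'⟩, h1'⟩ := h'
  refine ⟨⟨e * e', Nat.mul_pos he he', fun i => (hHe' i).aeval H hHe⟩, fun x hx => ?_⟩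
  have h0 : ∀ i, eval (0 : Fin N → L) (H' i) = 0 := by
    intro i
    have h2 := eval_smul (hHe' i) 0 (0 : Fin N → L)
    simp only [zero_mul] at h2
    rw [zero_pow (by omega), zero_mul] at h2
    exact h2
  rcases h1 x hx with h2 | ⟨c, hc, h2⟩
  · left
    intro i
    rw [eval_aeval]
    have : (fun i => eval (v x) (H i)) = 0 := funext h2
    rw [this]
    exact h0 i
  · have h3 : ∀ i, eval (v x) (aeval H (H' i)) = c ^ e' * eval (v (Φ x)) (H' i) := by
      intro i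
      rw [eval_aeval, ← eval_smul (hHe' i)]
      congr 2
      funext j
      exact h2 j
    rcases h1' (Φ x) (hmaps x hx) with h4 | ⟨c', hc', h4⟩
    · left
      intro i
      rw [h3, h4, mul_zero]
    · right
      refine ⟨c ^ e' * c', mul_ne_zero (pow_ne_zero _ hc) hc', fun i => ?_⟩
      rw [h3, h4, Function.iterate_succ_apply]
      ring

/-- finitely many charts of degree at most `D0` give an exponential bound -/
theorem bdP_exp (hmaps : ∀ x ∈ X, Φ x ∈ X) (hne : ∀ x ∈ X, v x ≠ 0) (D0 : ℕ) (hD0 : 1 ≤ D0)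
    (h : ∀ x ∈ X, ∃ H, Rep X Φ v 1 H ∧ (∀ i, (H i).totalDegree ≤ D0) ∧
      ∃ i, eval (v x) (H i) ≠ 0) : BdP X Φ v (fun g => D0 ^ g) := by
  refine ⟨hmaps, hne, fun g => ?_⟩
  induction g with
  | zero =>
    intro x hx
    obtain ⟨i, hi⟩ : ∃ i, v x i ≠ 0 := Function.ne_iff.1 (hne x hx)
    refine ⟨fun i => MvPolynomial.X i, ⟨⟨1, le_rfl, fun i => isHomogeneous_X _ _⟩,
      fun y hy => Or.inr ⟨1, one_ne_zero, fun i => by simp⟩⟩,
      fun i => by rw [totalDegree_X, pow_zero], i, by simpa using hi⟩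
  | succ g ih =>
    intro x hx
    obtain ⟨H, hH, hHd, i0, hi0⟩ := h x hx
    obtain ⟨H', hH', hHd', i1, hi1⟩ := ih (Φ x) (hmaps x hx)
    refine ⟨fun i => aeval H (H' i), rep_comp hmaps hH hH', fun i => ?_, i1, ?_⟩
    · refine le_trans (totalDegree_aeval_le H D0 hHd _) ?_
      rw [pow_succ]
      exact Nat.mul_le_mul_right _ (hHd' i)
    · obtain ⟨⟨e', he', hHe'⟩, -⟩ := hH'
      rcases hH.2 x hx with h2 | ⟨c, hc, h2⟩
      · exact absurd (h2 i0) hi0
      · rw [eval_aeval]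
        have h3 : eval (fun i => eval (v x) (H i)) (H' i1) =
            c ^ e' * eval (v (Φ x)) (H' i1) := by
          rw [← eval_smul (hHe' i1)]
          congr 2
          funext j
          exact h2 j
        rw [h3]
        exact mul_ne_zero (pow_ne_zero _ hc) hi1

end Pool.Agent.Q170.WD
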