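import Mathlib

/-!
# Project WD: the dynamical Mordell-Lang problem with a rate, for all polynomial maps and all `V`

Statements of the lemma jobs, each with a complete proof.  Everything is over one field `L` and about
ideals of `R = MvPolynomial (Fin N) L`; affine Hilbert functions replace intersection theory.
-/

set_option autoImplicit false

namespace Pool.Agent.Q170.WD

open MvPolynomial

/-- the affine Hilbert function of an ideal: the dimension of the image of the polynomials of total
degree at most `t` in the quotient -/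
noncomputable def hilb {L : Type} [Field L] {N : ℕ} (I : Ideal (MvPolynomial (Fin N) L)) (t : ℕ) :
    ℕ :=
  Module.finrank L ((restrictTotalDegree (Fin N) L t).map (Ideal.Quotient.mkₐ L I).toLinearMap)

/-- the dimension of a prime ideal (transcendence degree of the quotient) is `d` -/
def Dim {L : Type} [Field L] {N : ℕ} (I : Ideal (MvPolynomial (Fin N) L)) (d : ℕ) : Prop :=
  Algebra.trdeg L (MvPolynomial (Fin N) L ⧸ I) = (d : Cardinal)

/-- the degree in dimension `d` is at most `δ`: the lower limit of `hilb I t * d! / t ^ d` is at most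
`δ` -/
def Deg {L : Type} [Field L] {N : ℕ} (I : Ideal (MvPolynomial (Fin N) L)) (d δ : ℕ) : Prop :=
  ∀ ε : ℝ, 0 < ε → ∀ t0 : ℕ, ∃ t : ℕ, t0 ≤ t ∧
    (hilb I t : ℝ) * (d.factorial : ℝ) ≤ ((δ : ℝ) + ε) * (t : ℝ) ^ d

/-- the zeros of an ideal -/
def zeros {L : Type} [Field L] {N : ℕ} (I : Ideal (MvPolynomial (Fin N) L)) : Set (Fin N → L) :=
  {x | ∀ f ∈ I, MvPolynomial.eval x f = 0}

/-! ## Dimension -/

/-- JOB DIM.  (1) Every prime `P` has a dimension `d ≤ N`, with `d = N` only for `P = ⊥`;
(2) dimensions are strictly decreasing.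
Proof.  (1) the images of the variables generate `R ⧸ P`, so a transcendence basis is a subset of them
(`exists_isTranscendenceBasis_subset` in the fraction field, or directly in the domain), `d ≤ N`; if
`d = N` the images of all the variables are algebraically independent, so `P = ⊥`.
(2) If `P < Q` have the same dimension, take variables `x_i`, `i ∈ s`, whose images in `R ⧸ Q` are a
transcendence basis; their images in `R ⧸ P` are independent, so they are a transcendence basis of
`R ⧸ P` (same cardinality, finite).  Take `f ∈ Q`, `f ∉ P`.  The image of `f` in the domain `R ⧸ P` is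
algebraic over `L[x_i, i ∈ s]`: take a relation `∑ a_k f ^ k = 0` of least degree; as `f ≠ 0` in the
domain, `a_0 ≠ 0` in `R ⧸ P`.  Then `a_0 ∈ L[x_i]` is nonzero and lies in `Q` (it is a multiple of `f`
modulo `P`): a contradiction to the independence modulo `Q`. -/
def S_DIM : Prop :=
  (∀ (L : Type) [Field L] (N : ℕ) (P : Ideal (MvPolynomial (Fin N) L)), P.IsPrime →
    ∃ d, d ≤ N ∧ Dim P d ∧ (d = N → P = ⊥)) ∧
  ∀ (L : Type) [Field L] (N : ℕ) (P Q : Ideal (MvPolynomial (Fin N) L)), P.IsPrime → Q.IsPrime →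
    P < Q → ∀ d k, Dim P d → Dim Q k → k < d

/-- JOB HYPDIM.  The quotient by an irreducible polynomial in `s` variables has dimension `s - 1`.
Proof.  `π` is not constant, so some variable `x_j` occurs in `π`.  The other variables are
independent modulo `π`: a nonzero polynomial without `x_j` is not divisible by `π` (look at the degree
in `x_j`: `degreeOf j` is additive on products).  And `x_j` is algebraic over the others modulo `π`
(write `π` as a polynomial in `x_j`; its leading coefficient is a nonzero polynomial in the other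
variables, so it is nonzero modulo `π`).  Hence they are a transcendence basis with `s - 1`
elements. -/
def S_HYPDIM : Prop :=
  ∀ (L : Type) [Field L] (s : ℕ) (π : MvPolynomial (Fin s) L), Irreducible π →
    ∃ k, s = k + 1 ∧ Dim (Ideal.span {π}) k

/-- JOB KRULL (may use `S_HYPDIM` as a hypothesis, it is a separate job).  The minimal primes over a
prime and one more polynomial have dimension exactly one less.
Proof.  `A = R ⧸ P` is a domain of finite type.  Noether normalization
(`exists_finite_inj_algHom_of_fg`): an injective finite `g : B → A` with `B = MvPolynomial (Fin s) L`,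
`s = d` (transcendence degrees).  The image `Q'` of `Q` in `A` is a minimal prime over the principal
ideal `(f)`, `f ≠ 0` in `A`, so its height is at most `1` (Krull,
`Ideal.height_le_one_of_isPrincipal_of_mem_minimalPrimes`).  Let `q` be its preimage in `B`.
`q ≠ 0` (an integral extension of domains: a nonzero ideal has nonzero intersection with `B`).  Take a
prime element `π ∈ q` (a prime factor of a nonzero element, `B` is factorial).  If `(π) ≠ q` then
`0 < (π) < q` are primes of `B`; going down (instance in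
`Mathlib/RingTheory/IntegralClosure/GoingDown.lean`, `B` is integrally closed) gives a prime `Q1 < Q'`
over `(π)`, `Q1 ≠ 0`: then `Q'` has height at least `2`, a contradiction.  So `q = (π)`, and
`A ⧸ Q'` is integral over `B ⧸ (π)` (injective), so its transcendence degree is that of `B ⧸ (π)`,
which is `s - 1` by `S_HYPDIM`.  Finally `A ⧸ Q' ≃ R ⧸ Q`. -/
def S_KRULL : Prop :=
  ∀ (L : Type) [Field L] (N : ℕ) (P : Ideal (MvPolynomial (Fin N) L)) (f : MvPolynomial (Fin N) L)
    (Q : Ideal (MvPolynomial (Fin N) L)) (d : ℕ), P.IsPrime → f ∉ P →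
    Q ∈ (P ⊔ Ideal.span {f}).minimalPrimes → Dim P d → ∃ k, d = k + 1 ∧ Dim Q k

/-- JOB ZERO.  Over an algebraically closed field a prime of dimension zero has at most one zero.
Proof.  The image of each variable `x_i` in the domain `R ⧸ Q` is algebraic over `L`, hence lies in
the image of `L` (`IsAlgClosed`): `x_i - c_i ∈ Q`.  So each zero is `c`. -/
def S_ZERO : Prop :=
  ∀ (L : Type) [Field L] [IsAlgClosed L] (N : ℕ) (Q : Ideal (MvPolynomial (Fin N) L)), Q.IsPrime →
    Dim Q 0 → ∀ x ∈ zeros Q, ∀ y ∈ zeros Q, x = y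

/-! ## Hilbert functions -/

/-- JOB LOWER.  Lower bound for the Hilbert function.
Proof.  A transcendence basis of `R ⧸ P` consists of images of variables `x_i`, `i ∈ s`, `s` with `d`
elements (the images of the variables generate, `exists_isTranscendenceBasis_subset`).  The monomials
of degree at most `t` in these variables are linearly independent in `R ⧸ P` and lie in the image of
the polynomials of degree at most `t`.  Their number is `(t + d).choose d`. -/
def S_LOWER : Prop :=
  ∀ (L : Type) [Field L] (N : ℕ) (P : Ideal (MvPolynomial (Fin N) L)) (d : ℕ), P.IsPrime →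
    Dim P d → ∀ t, (t + d).choose d ≤ hilb P t

/-- JOB TOP.  The Hilbert function of the zero ideal, and of a principal ideal: for `F ≠ 0` of total
degree `e` and `e ≤ t` the polynomials of degree at most `t` in `(F)` are exactly `F` times those of
degree at most `t - e` (total degrees are additive in a domain). -/
def S_TOP : Prop :=
  (∀ (L : Type) [Field L] (N t : ℕ),
    hilb (⊥ : Ideal (MvPolynomial (Fin N) L)) t = (t + N).choose N) ∧
  ∀ (L : Type) [Field L] (N t : ℕ) (F : MvPolynomial (Fin N) L), F ≠ 0 → F.totalDegree ≤ t →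
    hilb (Ideal.span {F}) t + (t - F.totalDegree + N).choose N = (t + N).choose N

/-- JOB SEC.  Monotonicity, and the section by a hypersurface.
Proof.  First part: the quotient map of the images is surjective.  Second part: let `U_t` be the image
of the polynomials of degree at most `t` in `R ⧸ P` (dimension `hilb P t`).  Multiplication by `f` is
injective on the domain `R ⧸ P` and maps `U_(t-e)` into `U_t`; the surjection from `U_t` onto the image
in `R ⧸ (P ⊔ (f))` kills `f U_(t-e)`. -/
def S_SEC : Prop :=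
  (∀ (L : Type) [Field L] (N t : ℕ) (I J : Ideal (MvPolynomial (Fin N) L)), I ≤ J →
    hilb J t ≤ hilb I t) ∧
  ∀ (L : Type) [Field L] (N : ℕ) (P : Ideal (MvPolynomial (Fin N) L))
    (f : MvPolynomial (Fin N) L) (e : ℕ), P.IsPrime → f ∉ P → f.totalDegree ≤ e →
    ∀ t, e ≤ t → hilb (P ⊔ Ideal.span {f}) t + hilb P (t - e) ≤ hilb P t

/-- JOB SUM.  Hilbert functions of several primes add up.
Proof.  For `i` choose `g_i` outside `Q_i` and in all the other `Q_j` (product of elements of
`Q_j` outside `Q_i`, `Q_i` is prime).  Let `c` be the largest degree.  The linear map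
`(a_i) ↦ ∑ g_i a_i` from `∏ (polynomials of degree ≤ t - c)` to the image of the polynomials of degree
`≤ t` in `R ⧸ ⨅ Q_i` has the kernel `{a_i ∈ Q_i}` (modulo `Q_j` only `g_j a_j` remains, and `Q_j` is
prime), so `∑ hilb (Q_i) (t - c) ≤ hilb (⨅ Q_i) t ≤ hilb J t`. -/
def S_SUM : Prop :=
  ∀ (L : Type) [Field L] (N : ℕ) (J : Ideal (MvPolynomial (Fin N) L))
    (F : Finset (Ideal (MvPolynomial (Fin N) L))), (∀ Q ∈ F, Q.IsPrime) →
    (∀ Q ∈ F, ∀ Q' ∈ F, Q ≤ Q' → Q = Q') → (∀ Q ∈ F, J ≤ Q) →
    ∃ c, ∀ t, c ≤ t → ∑ Q ∈ F, hilb Q (t - c) ≤ hilb J t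

/-- JOB ASY.  Differences of sequences (no algebra).  If the lower limit of `a t * (d+1)! / t^(d+1)`
is at most `δ` and `b t + a (t - e) ≤ a t` for `t ≥ e` then the lower limit of `b t * d! / t ^ d` is at
most `e δ`.
Proof.  Otherwise for some `ε > 0` and all `t ≥ t0` (`t0 ≥ e`):
`a t - a (t - e) ≥ b t ≥ (e δ + ε) t ^ d / d!`.
Summing over `t, t - e, t - 2 e, ...` down to `t0` and using
`e * d-th power sums ≥ (t ^ (d+1) - (t0 + e) ^ (d+1)) / (d + 1)`
(`(x ^ (d+1) - (x - e) ^ (d+1)) ≤ (d + 1) e x ^ d`) gives
`a t ≥ (δ + ε / e) (t ^ (d+1) - (t0 + e) ^ (d+1)) / (d+1)!`, for large `t` larger than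
`(δ + ε / (2 e)) t ^ (d+1) / (d+1)!`, a contradiction.  (For `e = 0` the hypothesis gives
`b t = 0`.) -/
def S_ASY : Prop :=
  ∀ (a b : ℕ → ℕ) (d e δ : ℕ),
    (∀ ε : ℝ, 0 < ε → ∀ t0 : ℕ, ∃ t : ℕ, t0 ≤ t ∧
      (a t : ℝ) * ((d + 1).factorial : ℝ) ≤ ((δ : ℝ) + ε) * (t : ℝ) ^ (d + 1)) →
    (∀ t, e ≤ t → b t + a (t - e) ≤ a t) →
    ∀ ε : ℝ, 0 < ε → ∀ t0 : ℕ, ∃ t : ℕ, t0 ≤ t ∧
      (b t : ℝ) * (d.factorial : ℝ) ≤ (((e * δ : ℕ) : ℝ) + ε) * (t : ℝ) ^ d

/-- JOB CNT.  If `s` times the lower bound is below `b` then `s` is at most the degree (no algebra).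
Proof.  `(t - c + d).choose d ≥ (t - c) ^ d / d!`, so `s (t - c) ^ d ≤ (δ + ε) t ^ d` for arbitrarily
large `t`; let `t → ∞`, `ε → 0`; `s` and `δ` are integers. -/
def S_CNT : Prop :=
  ∀ (b : ℕ → ℕ) (d δ s c : ℕ),
    (∀ ε : ℝ, 0 < ε → ∀ t0 : ℕ, ∃ t : ℕ, t0 ≤ t ∧
      (b t : ℝ) * (d.factorial : ℝ) ≤ ((δ : ℝ) + ε) * (t : ℝ) ^ d) →
    (∀ t, c ≤ t → s * (t - c + d).choose d ≤ b t) → s ≤ δ

/-- JOB HYPDEG (may use `S_TOP` as a hypothesis).  A hypersurface in `d + 1` variables whose Hilbert
function is below one of degree `δ` has degree at most `δ`.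
Proof.  Let `e` be the total degree of `F`.  By `S_TOP`
`hilb (F) t = (t + d + 1).choose (d + 1) - (t - e + d + 1).choose (d + 1)` for `t ≥ e`, a sum of `e`
terms `(u + d).choose d`, `t - e < u ≤ t`, each at least `(t - e) ^ d / d!`.  So
`e (t - e) ^ d ≤ (δ + ε) t ^ d` for arbitrarily large `t`. -/
def S_HYPDEG : Prop :=
  ∀ (L : Type) [Field L] (d δ : ℕ) (F : MvPolynomial (Fin (d + 1)) L), F ≠ 0 →
    Deg (Ideal.span {F}) d δ → F.totalDegree ≤ δ

/-! ## Equations of bounded degree -/

/-- JOB PROJ.  One linear projection.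
Proof.  Write `M + 1` variables; `I` is prime of dimension `d`, `d + 2 ≤ M + 1`, and some `h ∈ I` has
`h(0) ≠ 0`.
(a) Direction.  `h` is not constant (`I ≠ ⊤`); let `h_top` be its homogeneous component of highest
degree, `h_top ≠ 0`.  In the domain `(R ⧸ I)[T]` (dimension `d + 1 < M + 1`) the `M + 1` elements
`x_i T` are algebraically dependent: there is a polynomial `c ≠ 0` with `c(x_0 T, ..., x_M T) = 0`.
As `L` is infinite there is `v ∈ L ^ (M+1)` with `h_top(v) c(v) ≠ 0` (`MvPolynomial.funext` or
`exists eval ≠ 0`).  In particular `v ≠ 0` (if `h_top` is a nonconstant form then `h_top(0) = 0`);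
say `v_k ≠ 0`.
(b) The line `L v` has no point of `zeros I`: if `s v ∈ zeros I` then `s ≠ 0` (as `h(0) ≠ 0`) and
evaluating `c(x T) = 0` at `x = s v`, `T = 1 / s` gives `c(v) = 0`.
(c) Let `λ_1, ..., λ_M` be the linear forms `x_i - (v_i / v_k) x_k`, `i ≠ k`; they vanish at `v`, and
`x_i = λ_i + (v_i / v_k) x_k`.  Then `R = L[λ][x_k]`, and `h` as a polynomial in `x_k` over `L[λ]` has
the leading coefficient `h_top(v) / v_k ^ deg` (a nonzero constant).  So `R ⧸ I` is integral over the
image of `L[λ]`, i.e. over `L[y] ⧸ I'` with `I' = comap ψ I`, `ψ : y_i ↦ λ_i`: `Dim I' d`.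
(d) If all the elements of `I'` vanished at `0`, the maximal ideal `(y_1, ..., y_M)` would contain
`I'`; by lying over there is a maximal ideal `m ⊇ I` of `R` which contains the `λ_i`; `R ⧸ m` is
algebraic over `L`, hence `= L`, so `m` is the ideal of a point of `zeros I` at which all the `λ_i`
vanish, i.e. a point of `L v`: a contradiction to (b).
The statement allows any linear forms (homogeneous of degree one, given by a matrix of
coefficients). -/
def S_PROJ : Prop :=
  ∀ (L : Type) [Field L] [IsAlgClosed L] (M d : ℕ) (I : Ideal (MvPolynomial (Fin (M + 1)) L)),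
    I.IsPrime → Dim I d → d + 1 ≤ M → (∃ h ∈ I, MvPolynomial.eval 0 h ≠ 0) →
    ∃ c : Fin M → Fin (M + 1) → L,
      Dim (I.comap (MvPolynomial.aeval (fun i : Fin M => ∑ j, MvPolynomial.C (c i j) *
        (MvPolynomial.X j : MvPolynomial (Fin (M + 1)) L)) :
          MvPolynomial (Fin M) L →ₐ[L] MvPolynomial (Fin (M + 1)) L)) d ∧
      ∃ h ∈ I.comap (MvPolynomial.aeval (fun i : Fin M => ∑ j, MvPolynomial.C (c i j) *
        (MvPolynomial.X j : MvPolynomial (Fin (M + 1)) L)) :
          MvPolynomial (Fin M) L →ₐ[L] MvPolynomial (Fin (M + 1)) L), MvPolynomial.eval 0 h ≠ 0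

/-- JOB CUT (may use `S_PROJ`, `S_HYPDEG`, `S_DIM`, `S_SEC` as hypotheses).  A prime of dimension `d`
and degree at most `δ` is cut out (as a set) by polynomials of degree at most `δ`.
Proof.  Induction on `N`.  If `d = N` then `P = ⊥` and `p ∈ zeros P`.  Translate `p` to `0`
(substitution `X_i ↦ X_i + p_i`, an automorphism which preserves total degrees, Hilbert functions and
dimensions).  If `N = d + 1`: take `h ∈ P` with `h(0) ≠ 0`, an irreducible factor `F ∈ P` of `h`
(`P` is prime, the ring is factorial), `F(0) ≠ 0`; `(F) ≤ P` are primes; `(F)` has dimension `≤ d`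
(`(F) ≠ ⊥`, `S_DIM`) so `(F) = P` (`S_DIM` (2)); by `S_HYPDEG` the degree of `F` is at most `δ`.
If `N ≥ d + 2` use `S_PROJ`: `I' = comap ψ P` is a prime of dimension `d` in `N - 1` variables, `0` is
not a zero of `I'`, and `hilb I' t ≤ hilb P t` (`ψ` does not increase degrees and induces an injective
map of the quotients), so `Deg I' d δ`; by induction there is `f' ∈ I'` of degree at most `δ` with
`f'(0) ≠ 0`; take `f = ψ f'`. -/
def S_CUT : Prop :=
  ∀ (L : Type) [Field L] [IsAlgClosed L] (N d δ : ℕ) (P : Ideal (MvPolynomial (Fin N) L)),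
    P.IsPrime → Dim P d → Deg P d δ → ∀ p : Fin N → L, p ∉ zeros P →
    ∃ f ∈ P, f.totalDegree ≤ δ ∧ MvPolynomial.eval p f ≠ 0

/-! ## Orbits -/

/-- JOB ORB.  For an orbit `x` of a polynomial map and a closed set `V` (the zeros of an ideal `I`) let
`S` be the set of the `n` with `x n ∈ V`.  There is a modulus `g0` such that from `n0` on each residue
class modulo `g0` is contained in `S` or contains no infinite arithmetic progression which is
contained in `S`.
Proof.  For a set `T` of indices let `J(T)` be the ideal of the polynomials vanishing at all `x n`,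
`n ∈ T`.  As `R` is noetherian there is an infinite progression `T0 = {a + g0 j : j}` (`g0 ≥ 1`) with a
maximal ideal `J(T0)` (among all such progressions).  So `J(T) = J(T0)` for all infinite progressions
`T ⊆ T0`.  The same holds for the progressions `T0 + i`, `i ≥ 0`: if `T ⊆ T0 + i` is an infinite
progression, remove finitely many elements (so that `T - i ⊆ T0` makes sense, it does) and let
`f ∈ J(T)`; `f ∘ Φ ^ i` vanishes on `T - i ⊆ T0`, so `f ∘ Φ ^ i ∈ J(T - i) = J(T0)`, and so
`f ∈ J(T0 + i)`.  Take `n0 = a`; each residue class modulo `g0`, from `n0` on, is up to finitely many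
elements one of the `T0 + i`, `0 ≤ i < g0` (exactly: `{n ≥ n0, n ≡ r}` is `T0 + i` with
`i ≡ r - a`, `0 ≤ i < g0`).  If an infinite progression `T ⊆ T0 + i` is contained in `S` then
`I ≤ J(T) = J(T0 + i)`, so `T0 + i ⊆ S`. -/
def S_ORB : Prop :=
  ∀ (K : Type) [Field K] (N : ℕ) (Φ : Fin N → MvPolynomial (Fin N) K)
    (I : Ideal (MvPolynomial (Fin N) K)) (x : ℕ → Fin N → K),
    (∀ n i, x (n + 1) i = MvPolynomial.eval (x n) (Φ i)) →
    ∃ g0 n0 : ℕ, 1 ≤ g0 ∧ ∀ r < g0,
      (∀ n, n0 ≤ n → n % g0 = r → x n ∈ zeros I) ∨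
      ∀ n g, n0 ≤ n → n % g0 = r → 1 ≤ g → ∃ j, x (n + g * j) ∉ zeros I

/-- JOB BASE (may use `S_KRULL` and `S_DIM` as hypotheses).  Dimensions after an algebraic extension of
the base field.
Proof.  (a) A prime `Q` of `MvPolynomial (Fin N) L` with `Dim Q d` is the first member of a chain
`Q = Q_0 < Q_1 < ... < Q_d` of primes: induction on `d`; if `Dim Q (d + 1)` then `Q` is not maximal (for
a maximal ideal the quotient is algebraic over `L`, Zariski's lemma, so the transcendence degree is
`0`); take a maximal `m > Q`, `f ∈ m`, `f ∉ Q`, and a minimal prime `Q_1 ≤ m` over `Q ⊔ (f)`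
(`Ideal.exists_minimalPrimes_le`); by `S_KRULL` `Dim Q_1 d`.
(b) `MvPolynomial (Fin N) L` is integral over `MvPolynomial (Fin N) K` (it is generated by the constants
`C c`, `c ∈ L` algebraic, and the variables), so the contractions of the `Q_i` are strictly increasing
(incomparability, `Ideal.comap_lt_comap_of_integral_mem_sdiff` or
`Ideal.IsIntegral.comap_lt_comap`); they contain `I`.  Their images in the quotient by `I` are a
chain of `d + 1` primes, so `d ≤ ringKrullDim ≤ k`. -/
def S_BASE : Prop :=
  ∀ (K L : Type) [Field K] [Field L] [Algebra K L] [Algebra.IsAlgebraic K L] (N k : ℕ)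
    (I : Ideal (MvPolynomial (Fin N) K)) (Q : Ideal (MvPolynomial (Fin N) L)) (d : ℕ),
    ringKrullDim (MvPolynomial (Fin N) K ⧸ I) ≤ (k : WithBot ℕ∞) → Q.IsPrime →
    I.map (MvPolynomial.map (algebraMap K L)) ≤ Q → Dim Q d → d ≤ k

end Pool.Agent.Q170.WD
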