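import Pool.Agent.Q170.WD.Cmp

/-!
# One step: the returns after `g` steps to a prime lie in few primes of smaller dimension
-/

set_option autoImplicit false

namespace Pool.Agent.Q170.WD

open MvPolynomial

variable {L : Type} [Field L] {N : ℕ}

/-- larger ideals have smaller degree -/
theorem Deg.mono (hSEC : S_SEC) {I J : Ideal (MvPolynomial (Fin N) L)} (h : I ≤ J) {d δ : ℕ}
    (hd : Deg I d δ) : Deg J d δ := by
  intro ε hε t0
  obtain ⟨t, ht, h1⟩ := hd ε hε t0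
  refine ⟨t, ht, le_trans ?_ h1⟩
  have := hSEC.1 L N t I J h
  gcongr

theorem Deg.weaken {I : Ideal (MvPolynomial (Fin N) L)} {d δ δ' : ℕ} (h : δ ≤ δ')
    (hd : Deg I d δ) : Deg I d δ' := by
  intro ε hε t0
  obtain ⟨t, ht, h1⟩ := hd ε hε t0
  refine ⟨t, ht, le_trans h1 ?_⟩
  gcongr

/-- the section of a prime by a hypersurface -/
theorem section_deg (hSEC : S_SEC) (hASY : S_ASY) {P : Ideal (MvPolynomial (Fin N) L)}
    (hP : P.IsPrime) {f : MvPolynomial (Fin N) L} (hf : f ∉ P) {e : ℕ} (he : f.totalDegree ≤ e)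
    {d δ : ℕ} (hd : Deg P (d + 1) δ) : Deg (P ⊔ Ideal.span {f}) d (e * δ) :=
  hASY (hilb P) (hilb (P ⊔ Ideal.span {f})) d e δ hd (hSEC.2 L N P f e hP hf he)

/-- the minimal primes over a section are few, of dimension one less and of bounded degree -/
theorem section_primes (hKRULL : S_KRULL) (hSEC : S_SEC) (hASY : S_ASY) (hSUM : S_SUM)
    (hLOWER : S_LOWER) (hCNT : S_CNT) {P : Ideal (MvPolynomial (Fin N) L)}
    (hP : P.IsPrime) {f : MvPolynomial (Fin N) L} (hf : f ∉ P) {e : ℕ} (he : f.totalDegree ≤ e)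
    {d δ : ℕ} (hdim : Dim P (d + 1)) (hd : Deg P (d + 1) δ) :
    ∃ F : Finset (Ideal (MvPolynomial (Fin N) L)), F.card ≤ e * δ ∧
      (∀ Q ∈ F, Q ∈ (P ⊔ Ideal.span {f}).minimalPrimes ∧ P ≤ Q ∧ f ∈ Q ∧ Dim Q d ∧
        Deg Q d (e * δ)) ∧
      ∀ y ∈ zeros P, eval y f = 0 → ∃ Q ∈ F, y ∈ zeros Q := by
  classical
  have hfin : (P ⊔ Ideal.span {f}).minimalPrimes.Finite :=
    Ideal.finite_minimalPrimes_of_isNoetherianRing _ _
  have hdeg := section_deg hSEC hASY hP hf he hd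
  have hmem : ∀ Q ∈ hfin.toFinset, Q.IsPrime ∧ P ⊔ Ideal.span {f} ≤ Q ∧ Dim Q d := by
    intro Q hQ
    rw [Set.Finite.mem_toFinset] at hQ
    obtain ⟨k, hk, hk'⟩ := hKRULL L N P f Q (d + 1) hP hf hQ hdim
    refine ⟨hQ.1.1, hQ.1.2, ?_⟩
    have : k = d := by omega
    rw [← this]
    exact hk'
  refine ⟨hfin.toFinset, ?_, fun Q hQ => ?_, fun y hy hyf => ?_⟩
  · obtain ⟨c, hc⟩ := hSUM L N (P ⊔ Ideal.span {f}) hfin.toFinset (fun Q hQ => (hmem Q hQ).1)
      (fun Q hQ Q' hQ' hle => by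
        rw [Set.Finite.mem_toFinset] at hQ hQ'
        exact le_antisymm hle (hQ'.2 ⟨hQ.1.1, hQ.1.2⟩ hle))
      (fun Q hQ => (hmem Q hQ).2.1)
    refine hCNT (hilb (P ⊔ Ideal.span {f})) d (e * δ) _ c hdeg (fun t ht => ?_)
    refine le_trans ?_ (hc t ht)
    rw [← smul_eq_mul, ← Finset.sum_const]
    exact Finset.sum_le_sum (fun Q hQ => hLOWER L N Q d (hmem Q hQ).1 (hmem Q hQ).2.2 _)
  · have h1 := hmem Q hQ
    refine ⟨by rwa [Set.Finite.mem_toFinset] at hQ, le_sup_left.trans h1.2.1, ?_, h1.2.2,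
      Deg.mono hSEC h1.2.1 hdeg⟩
    exact h1.2.1 (Ideal.mem_sup_right (Ideal.mem_span_singleton_self f))
  · set m : Ideal (MvPolynomial (Fin N) L) := RingHom.ker (eval y) with hm
    have hmp : m.IsPrime := RingHom.ker_isPrime _
    have hle : P ⊔ Ideal.span {f} ≤ m := by
      refine sup_le (fun g hg => ?_) ?_
      · rw [hm, RingHom.mem_ker]; exact hy g hg
      · rw [Ideal.span_singleton_le_iff_mem, hm, RingHom.mem_ker]; exact hyf
    obtain ⟨Q, hQ, hQm⟩ := Ideal.exists_minimalPrimes_le hle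
    refine ⟨Q, by rw [Set.Finite.mem_toFinset]; exact hQ, fun g hg => ?_⟩
    have := hQm hg
    rwa [hm, RingHom.mem_ker] at this

/-- the step -/
theorem step [IsAlgClosed L] (hKRULL : S_KRULL) (hSEC : S_SEC) (hASY : S_ASY) (hSUM : S_SUM)
    (hLOWER : S_LOWER) (hCNT : S_CNT) (hCUT : S_CUT) {Φ : Fin N → MvPolynomial (Fin N) L}
    {D : ℕ → ℕ} (hD : Bd Φ D) {P : Ideal (MvPolynomial (Fin N) L)}
    (hP : P.IsPrime) {d δ : ℕ} (hdim : Dim P (d + 1)) (hd : Deg P (d + 1) δ) (g : ℕ)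
    (hg : ∃ y ∈ zeros P, (mp Φ)^[g] y ∉ zeros P) :
    ∃ F : Finset (Ideal (MvPolynomial (Fin N) L)), F.card ≤ δ * D g * δ ∧
      (∀ Q ∈ F, Q.IsPrime ∧ P ≤ Q ∧ Dim Q d ∧ Deg Q d (δ * D g * δ)) ∧
      ∀ y ∈ zeros P, (mp Φ)^[g] y ∈ zeros P → ∃ Q ∈ F, y ∈ zeros Q := by
  obtain ⟨y, hy, hy'⟩ := hg
  obtain ⟨f, hfP, hfd, hfy⟩ := hCUT L N (d + 1) δ P hP hdim hd _ hy'
  have hh : (pb Φ)^[g] f ∉ P := by
    intro h
    have h1 := hy _ h
    rw [eval_pb_iter] at h1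
    exact hfy h1
  obtain ⟨F, hF1, hF2, hF3⟩ := section_primes hKRULL hSEC hASY hSUM hLOWER hCNT hP hh
    (le_trans (hD.le g f) (Nat.mul_le_mul_right _ hfd)) hdim hd
  refine ⟨F, hF1, fun Q hQ => ⟨(hF2 Q hQ).1.1.1, (hF2 Q hQ).2.1, (hF2 Q hQ).2.2.2.1,
    (hF2 Q hQ).2.2.2.2⟩, fun z hz hz' => ?_⟩
  apply hF3 z hz
  rw [eval_pb_iter]
  exact hz' f hfP

/-- every prime has a finite degree -/
theorem deg_finite (hDIM : S_DIM) (hKRULL : S_KRULL) (hTOP : S_TOP) (hSEC : S_SEC) (hASY : S_ASY)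
    (hSUM : S_SUM) (hLOWER : S_LOWER) (hCNT : S_CNT) (P : Ideal (MvPolynomial (Fin N) L))
    (hP : P.IsPrime) (d : ℕ) (hd : Dim P d) : ∃ δ, Deg P d δ := by
  -- the zero ideal
  have hbot : Deg (⊥ : Ideal (MvPolynomial (Fin N) L)) N 1 := by
    have hlim : Filter.Tendsto (fun t : ℕ => (((t : ℝ) + N) / t) ^ N) Filter.atTop
        (nhds (1 ^ N)) := by
      apply Filter.Tendsto.pow
      have h1 : Filter.Tendsto (fun t : ℕ => 1 + (N : ℝ) / t) Filter.atTop (nhds (1 + 0)) :=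
        tendsto_const_nhds.add (tendsto_const_div_atTop_nhds_zero_nat _)
      rw [add_zero] at h1
      refine h1.congr' ?_
      filter_upwards [Filter.eventually_gt_atTop 0] with t ht
      have : (t : ℝ) ≠ 0 := by positivity
      field_simp
    intro ε hε t0
    rw [one_pow] at hlim
    have h1 := hlim.eventually (gt_mem_nhds (show (1 : ℝ) < 1 + ε by linarith))
    obtain ⟨t, ht, ht0, htp⟩ := (h1.and ((Filter.eventually_ge_atTop t0).and
      (Filter.eventually_gt_atTop 0))).exists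
    refine ⟨t, ht0, ?_⟩
    rw [hTOP.1]
    have h2 : ((t + N).choose N : ℝ) * (N.factorial : ℝ) ≤ ((t : ℝ) + N) ^ N := by
      have h3 : (t + N).choose N * N.factorial ≤ (t + N) ^ N := by
        rw [mul_comm, ← Nat.descFactorial_eq_factorial_mul_choose]
        exact Nat.descFactorial_le_pow _ _
      exact_mod_cast h3
    refine le_trans h2 ?_
    have h4 : (0 : ℝ) < (t : ℝ) ^ N := by positivity
    rw [div_pow] at ht
    rw [div_lt_iff₀ h4] at ht
    push_cast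
    exact ht.le
  have key : ∀ (n : ℕ) (P0 : Ideal (MvPolynomial (Fin N) L)), P0.IsPrime → P0 ≤ P →
      ∀ d0 δ0, Dim P0 d0 → Deg P0 d0 δ0 → d0 ≤ n → ∃ δ, Deg P d δ := by
    intro n
    induction n with
    | zero =>
      intro P0 hP0 hle d0 δ0 hd0 hδ0 hn
      by_cases heq : P0 = P
      · subst heq
        have : d0 = d := by
          have := hd0.symm.trans hd
          exact_mod_cast this
        exact ⟨δ0, this ▸ hδ0⟩
      · have := hDIM.2 L N P0 P hP0 hP (lt_of_le_of_ne hle heq) d0 d hd0 hd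
        omega
    | succ n ih =>
      intro P0 hP0 hle d0 δ0 hd0 hδ0 hn
      by_cases heq : P0 = P
      · subst heq
        have : d0 = d := by
          have := hd0.symm.trans hd
          exact_mod_cast this
        exact ⟨δ0, this ▸ hδ0⟩
      · have hlt := lt_of_le_of_ne hle heq
        have h1 := hDIM.2 L N P0 P hP0 hP hlt d0 d hd0 hd
        obtain ⟨d1, rfl⟩ : ∃ d1, d0 = d1 + 1 := ⟨d0 - 1, by omega⟩
        obtain ⟨f, hfP, hf⟩ := SetLike.exists_of_lt hlt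
        have hle' : P0 ⊔ Ideal.span {f} ≤ P :=
          sup_le hle ((Ideal.span_singleton_le_iff_mem _).2 hfP)
        obtain ⟨Q, hQ, hQP⟩ := Ideal.exists_minimalPrimes_le hle'
        obtain ⟨k, hk, hk'⟩ := hKRULL L N P0 f Q (d1 + 1) hP0 hf hQ hd0
        have hkd : k = d1 := by omega
        rw [hkd] at hk'
        exact ih Q hQ.1.1 hQP d1 (f.totalDegree * δ0) hk'
          (Deg.mono hSEC hQ.1.2 (section_deg hSEC hASY hP0 hf le_rfl hδ0)) (by omega)
  have hd0' : Dim (⊥ : Ideal (MvPolynomial (Fin N) L)) N := by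
    unfold Dim
    rw [AlgEquiv.trdeg_eq (AlgEquiv.quotientBot L (MvPolynomial (Fin N) L)),
      MvPolynomial.trdeg_of_isDomain]
    simp
  exact key N ⊥ Ideal.isPrime_bot bot_le N 1 hd0' hbot le_rfl

end Pool.Agent.Q170.WD
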